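import Pool.Agent.T2H76.PR.Stm

/-!
# Package BDY: boundary points
-/

set_option autoImplicit false

open Filter Topology Metric Set

namespace T2H76.PR

theorem pBDY (hTAY : TAYStm) (hRIN : RINStm) (hSDE : SDEStm) : BDYStm := by
  intro n m M D hM hD q hq
  obtain ⟨O, hO, hDO⟩ := hD.rel_open
  obtain ⟨U, W, ψ, φ, G, hqU, hP, hG, hG0, hbd⟩ := hD.bdry q hq
  have hqM : q ∈ M := hD.sub hq.1
  set x₀ : Rm m := φ q with hx₀
  have hx₀W : x₀ ∈ W := hP.maps' q ⟨hqM, hqU⟩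
  have hψx₀ : ψ x₀ = q := hP.right q ⟨hqM, hqU⟩
  have hψcont : ContinuousOn ψ W := hP.smooth.continuousOn
  -- the set `A₀`
  set A₀ : Set (Rm m) := {x | x ∈ W ∧ ψ x ∈ D} with hA₀
  have hmemD : ∀ x ∈ W, (ψ x ∈ D ↔ ψ x ∈ O) := by
    intro x hx
    rw [hDO]
    exact ⟨fun h => h.2, fun h => ⟨(hP.maps x hx).1, h⟩⟩
  have hA₀o : IsOpen A₀ := by
    have h1 : A₀ = W ∩ ψ ⁻¹' O := by
      ext x
      constructor
      · intro h
        exact ⟨h.1, (hmemD x h.1).1 h.2⟩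
      · intro h
        exact ⟨h.1, (hmemD x h.1).2 h.2⟩
    rw [h1]
    exact hψcont.isOpen_inter_preimage hP.openW hO
  have hcl : ∀ x ∈ W, x ∈ closure A₀ → ψ x ∈ closure D := by
    intro x hx hxc
    have h1 : ContinuousWithinAt ψ A₀ x :=
      ((hψcont.continuousAt (hP.openW.mem_nhds hx))).continuousWithinAt
    exact h1.mem_closure hxc (fun y hy => hy.2)
  have hdich : ∀ x ∈ W, ψ x ∈ closure D → x ∈ A₀ ∨ G x = 0 := by
    intro x hx hxc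
    by_cases h : ψ x ∈ D
    · exact Or.inl ⟨hx, h⟩
    · exact Or.inr ((hbd x hx).1 ⟨hxc, h⟩)
  have h1 : ∀ x ∈ W, x ∈ closure A₀ → x ∈ A₀ ∨ G x = 0 := fun x hx hxc =>
    hdich x hx (hcl x hx hxc)
  have h2 : ∀ x ∈ A₀, G x ≠ 0 := by
    intro x hx hGx
    exact ((hbd x hx.1).2 hGx).2 hx.2
  have hGx₀ : G x₀ = 0 := (hbd x₀ hx₀W).1 (by rw [hψx₀]; exact hq)
  have hφc : ContinuousWithinAt φ (M ∩ U) q := hP.cont q ⟨hqM, hqU⟩
  have hDM : D ⊆ M := by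
    rw [hDO]
    exact inter_subset_left
  have h3 : x₀ ∈ closure A₀ := by
    rw [Metric.mem_closure_iff]
    intro ε hε
    obtain ⟨δ, hδ, hδφ⟩ := Metric.continuousWithinAt_iff.1 hφc ε hε
    obtain ⟨δ', hδ', hδU⟩ := Metric.isOpen_iff.1 hP.openU q hqU
    obtain ⟨p, hpD, hpq⟩ := Metric.mem_closure_iff.1 hq.1 (min δ δ') (lt_min hδ hδ')
    have hpU : p ∈ U := hδU (by
      rw [Metric.mem_ball, dist_comm]
      exact lt_of_lt_of_le hpq (min_le_right _ _))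
    have hpMU : p ∈ M ∩ U := ⟨hDM hpD, hpU⟩
    refine ⟨φ p, ⟨hP.maps' p hpMU, ?_⟩, ?_⟩
    · rw [hP.right p hpMU]
      exact hpD
    · rw [dist_comm]
      apply hδφ hpMU
      rw [dist_comm]
      exact lt_of_lt_of_le hpq (min_le_left _ _)
  obtain ⟨ν, hν, ρ₀, hρ₀, hS⟩ := hSDE m G W x₀ A₀ hP.openW hx₀W hG hG0 hGx₀ hA₀o h1 h2 h3
  obtain ⟨K₁, hK₁, ρ₁, hρ₁, hT⟩ := hTAY n m ψ W x₀ hP.openW hP.smooth hx₀W
  have hΛc : ContinuousAt (fun x => fderiv ℝ ψ x) x₀ :=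
    (hP.smooth.continuousOn_fderiv_of_isOpen hP.openW (by norm_num)).continuousAt
      (hP.openW.mem_nhds hx₀W)
  obtain ⟨K₂, hK₂, ρ₂, hρ₂, hR⟩ := hRIN n m (fun x => fderiv ℝ ψ x) x₀ hΛc
    (fun w => hM.generic U W ψ φ hP x₀ hx₀W w)
  set σ : ℝ := min ρ₀ (min ρ₁ ρ₂) with hσ
  have hσ0 : 0 < σ := lt_min hρ₀ (lt_min hρ₁ hρ₂)
  have hσ1 : σ ≤ ρ₀ := min_le_left _ _
  have hσ2 : σ ≤ ρ₁ := (min_le_right _ _).trans (min_le_left _ _)
  have hσ3 : σ ≤ ρ₂ := (min_le_right _ _).trans (min_le_right _ _)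
  obtain ⟨δ, hδ, hδφ⟩ := Metric.continuousWithinAt_iff.1 hφc σ hσ0
  obtain ⟨δ', hδ', hδU⟩ := Metric.isOpen_iff.1 hP.openU q hqU
  refine ⟨max K₁ K₂, le_max_of_le_left hK₁, σ, hσ0, min δ δ', lt_min hδ hδ', ?_⟩
  intro p hp hpn
  have hpM : p ∈ M := hD.sub hp
  have hpU : p ∈ U := hδU (by
    rw [Metric.mem_ball, dist_eq_norm]
    exact lt_of_lt_of_le hpn (min_le_right _ _))
  set x : Rm m := φ p with hx
  have hψx : ψ x = p := hP.right p ⟨hpM, hpU⟩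
  have hxW : x ∈ W := hP.maps' p ⟨hpM, hpU⟩
  have hxx₀ : ‖x - x₀‖ < σ := by
    have h4 := hδφ (x := p) ⟨hpM, hpU⟩ (by
      rw [dist_eq_norm]
      exact lt_of_lt_of_le hpn (min_le_left _ _))
    rwa [dist_eq_norm] at h4
  have hxA : x ∈ A₀ ∨ G x = 0 := hdich x hxW (by rw [hψx]; exact hp)
  obtain ⟨hL, hTx⟩ := hT x (by linarith)
  refine ⟨m, fderiv ℝ ψ x, ν, hν, hL.trans (le_max_left _ _), ?_, ?_⟩
  · intro w
    obtain ⟨ξ, η, h4, h5, h6⟩ := hR x (by linarith) w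
    have h7 : K₂ * ‖w‖ ≤ max K₁ K₂ * ‖w‖ :=
      mul_le_mul_of_nonneg_right (le_max_right _ _) (norm_nonneg _)
    exact ⟨ξ, η, h4.trans h7, h5.trans h7, h6⟩
  · intro ξ hξ hcone
    obtain ⟨hxξW, hquad⟩ := hTx ξ (by linarith)
    have hmem : ψ (x + ξ) ∈ closure D := by
      rcases hS x (by linarith) hxA ξ (by linarith) hcone with h | h
      · exact subset_closure h.2
      · exact ((hbd (x + ξ) hxξW).2 h).1
    have h4 : infDist (p + fderiv ℝ ψ x ξ) (closure D) ≤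
        dist (p + fderiv ℝ ψ x ξ) (ψ (x + ξ)) := infDist_le_dist_of_mem hmem
    have h5 : dist (p + fderiv ℝ ψ x ξ) (ψ (x + ξ)) =
        ‖ψ (x + ξ) - ψ x - fderiv ℝ ψ x ξ‖ := by
      rw [dist_comm, dist_eq_norm, hψx]
      congr 1
      abel
    rw [h5] at h4
    have h6 : K₁ * ‖ξ‖ ^ 2 ≤ max K₁ K₂ * ‖ξ‖ ^ 2 :=
      mul_le_mul_of_nonneg_right (le_max_left _ _) (sq_nonneg _)
    exact (h4.trans hquad).trans h6

end T2H76.PR
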