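import Pool.Agent.T2H76.PR.Stm

open Filter Topology Metric Set

namespace T2H76.PR

theorem exists_kappa (K r B ε : ℝ) (hK : 1 ≤ K) (hr : 0 < r) (hB : 0 ≤ B) (hε : 0 < ε) :
    ∃ κ : ℝ, 0 < κ ∧ κ ≤ 1 ∧ 9 * K * κ ^ 2 ≤ 1 ∧ κ ^ 4 ≤ r ∧ B * κ ≤ ε := by
  have hK0 : 0 < K := by linarith
  refine ⟨min (1 / (3 * K)) (min r (ε / (B + 1))), ?_, ?_, ?_, ?_, ?_⟩
  · exact lt_min (by positivity) (lt_min hr (by positivity))
  · refine (min_le_left _ _).trans ?_
    rw [div_le_one (by positivity)]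
    linarith
  · set κ := min (1 / (3 * K)) (min r (ε / (B + 1))) with hκ
    have h0 : 0 < κ := lt_min (by positivity) (lt_min hr (by positivity))
    have h1 : κ ≤ 1 / (3 * K) := min_le_left _ _
    have h2 : κ ^ 2 ≤ (1 / (3 * K)) ^ 2 := by gcongr
    calc 9 * K * κ ^ 2 ≤ 9 * K * (1 / (3 * K)) ^ 2 := by gcongr
      _ = 1 / K := by field_simp; norm_num
      _ ≤ 1 := by rw [div_le_one hK0]; exact hK
  · set κ := min (1 / (3 * K)) (min r (ε / (B + 1))) with hκ
    have h0 : 0 < κ := lt_min (by positivity) (lt_min hr (by positivity))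
    have h1 : κ ≤ 1 := (min_le_left _ _).trans (by
      rw [div_le_one (by positivity)]; linarith)
    have h2 : κ ≤ r := (min_le_right _ _).trans (min_le_left _ _)
    calc κ ^ 4 ≤ κ ^ 1 := pow_le_pow_of_le_one h0.le h1 (by norm_num)
      _ = κ := pow_one κ
      _ ≤ r := h2
  · set κ := min (1 / (3 * K)) (min r (ε / (B + 1))) with hκ
    have h0 : 0 < κ := lt_min (by positivity) (lt_min hr (by positivity))
    have h2 : κ ≤ ε / (B + 1) := (min_le_right _ _).trans (min_le_right _ _)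
    have h3 : κ * (B + 1) ≤ ε := by rwa [le_div_iff₀ (by positivity)] at h2
    nlinarith

theorem pFIN (hGLO : GLOStm) (hITE : ITEStm) (hUBD : UBDStm) (hVCO : VCOStm) : FINStm := by
  intro n m M D hM hD
  have hEne : (closure D).Nonempty := hD.conn.nonempty.closure
  apply hVCO n (closure D) hD.cpt hEne
  intro ε hε
  rcases Nat.eq_zero_or_pos n with hn | hn
  · subst hn
    refine ⟨1, one_pos, fun z _ => ?_⟩
    obtain ⟨w, hw⟩ := hEne
    have hz : z ∈ closure D := by rwa [Subsingleton.elim z w]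
    refine sSup_le ?_
    rintro t ⟨u, hu, huE, rfl⟩
    exact (huE z hz).trans (by exact_mod_cast hε.le)
  · obtain ⟨K, hK, r, hr, hC⟩ := hGLO n m M D hn hM hD
    obtain ⟨M0, hM0, hub⟩ := hUBD n (closure D) K r hD.cpt hEne hK hr hC
    have hK0 : 0 < K := by linarith
    obtain ⟨κ, hκ, -, h1, h2, h3⟩ := exists_kappa K r (300 * K * M0) ε hK hr (by positivity) hε
    refine ⟨κ ^ 8, by positivity, fun z hz => ?_⟩
    refine sSup_le ?_
    rintro t ⟨u, hu, huE, rfl⟩
    refine (hITE n u (closure D) K r κ M0 hu.1 hD.cpt hEne hK hκ h1 h2 hM0 hC huE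
      (hub u hu huE) z hz).trans ?_
    exact_mod_cast h3

end T2H76.PR
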