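import Pool.Agent.T2H76.PR.Stm

open Filter Topology Metric Set

namespace T2H76.PR

theorem Cone.mono' {n : ℕ} {E : Set (Cn n)} {p : Cn n} {K K' r r' : ℝ} (h : Cone E p K r)
    (hK : K ≤ K') (hr : r' ≤ r) : Cone E p K' r' := by
  obtain ⟨m, L, ν, hν, hL, hR, hc⟩ := h
  refine ⟨m, L, ν, hν, hL.trans hK, fun w => ?_, fun ξ hξ hξν => ?_⟩
  · obtain ⟨ξ, η, h1, h2, h3⟩ := hR w
    have := mul_le_mul_of_nonneg_right hK (norm_nonneg w)
    exact ⟨ξ, η, h1.trans this, h2.trans this, h3⟩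
  · have := mul_le_mul_of_nonneg_right hK (sq_nonneg ‖ξ‖)
    exact (hc ξ (hξ.trans hr) hξν).trans this

theorem pGLO (hINT : INTStm) (hBDY : BDYStm) : GLOStm := by
  intro n m M D hn hM hD
  have hEne : (closure D).Nonempty := hD.conn.nonempty.closure
  -- `0 < m`
  have hm : 0 < m := by
    rcases Nat.eq_zero_or_pos m with h0 | h0
    · exfalso
      subst h0
      obtain ⟨p, hp⟩ := hEne
      obtain ⟨U, W, ψ, φ, hpU, hP⟩ := hM.patch p (hD.sub hp)
      have hx : φ p ∈ W := hP.maps' p ⟨hD.sub hp, hpU⟩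
      have hall : ∀ w : Cn n, w = 0 := by
        intro w
        obtain ⟨ξ, η, h⟩ := hM.generic U W ψ φ hP (φ p) hx w
        have h1 : ξ = 0 := Subsingleton.elim _ _
        have h2 : η = 0 := Subsingleton.elim _ _
        rw [h, h1, h2]
        simp
      have h3 := hall (EuclideanSpace.single (⟨0, hn⟩ : Fin n) (1 : ℂ))
      have h4 := congrArg (fun v : Cn n => v ⟨0, hn⟩) h3
      simp at h4
    · exact h0
  have hloc : ∀ q ∈ closure D, ∃ K : ℝ, 1 ≤ K ∧ ∃ r > 0, ∃ ρ > 0, ∀ p ∈ closure D,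
      ‖p - q‖ < ρ → Cone (closure D) p K r := by
    intro q hq
    by_cases hqD : q ∈ D
    · exact hINT n m M D hm hM hD q hqD
    · exact hBDY n m M D hM hD q ⟨hq, hqD⟩
  -- compactness
  have key : ∃ K : ℝ, 1 ≤ K ∧ ∃ r > 0, ∀ p ∈ closure D, Cone (closure D) p K r := by
    refine hD.cpt.induction_on
      (p := fun s => ∃ K : ℝ, 1 ≤ K ∧ ∃ r > 0, ∀ p ∈ s, Cone (closure D) p K r) ?_ ?_ ?_ ?_
    · exact ⟨1, le_refl _, 1, one_pos, fun p hp => absurd hp (notMem_empty p)⟩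
    · rintro s t hst ⟨K, hK, r, hr, h⟩
      exact ⟨K, hK, r, hr, fun p hp => h p (hst hp)⟩
    · rintro s t ⟨K, hK, r, hr, h⟩ ⟨K', hK', r', hr', h'⟩
      refine ⟨max K K', le_max_of_le_left hK, min r r', lt_min hr hr', ?_⟩
      rintro p (hp | hp)
      · exact (h p hp).mono' (le_max_left _ _) (min_le_left _ _)
      · exact (h' p hp).mono' (le_max_right _ _) (min_le_right _ _)
    · intro q hq
      obtain ⟨K, hK, r, hr, ρ, hρ, h⟩ := hloc q hq
      refine ⟨closure D ∩ ball q ρ, ?_, K, hK, r, hr, ?_⟩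
      · exact inter_mem_nhdsWithin _ (ball_mem_nhds q hρ)
      · rintro p ⟨hp, hpq⟩
        exact h p hp (by rwa [mem_ball, dist_eq_norm] at hpq)
  exact key

end T2H76.PR
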