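import Pool.Agent.T2H76.PR.Stm

open Filter Topology Metric Set

namespace T2H76.PR

namespace PkgHD

/-- the harmonic function of the half disc -/
noncomputable def hh (r A M : ℝ) (ζ : ℂ) : ℝ :=
  A + (M - A) * (2 * ζ.im / r + (ζ.re ^ 2 - ζ.im ^ 2) / r ^ 2)

noncomputable def ff (r A M : ℝ) (ζ : ℂ) : ℂ :=
  (A : ℂ) + ((M - A : ℝ) : ℂ) * (((2 / r : ℝ) : ℂ) * (-(Complex.I * ζ)) +
    ((1 / r ^ 2 : ℝ) : ℂ) * ζ ^ 2)

lemma ff_re (r A M : ℝ) (ζ : ℂ) : (ff r A M ζ).re = hh r A M ζ := by
  unfold ff hh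
  rw [Complex.add_re, Complex.re_ofReal_mul, Complex.add_re, Complex.re_ofReal_mul,
    Complex.re_ofReal_mul, Complex.ofReal_re]
  have h1 : (-(Complex.I * ζ)).re = ζ.im := by simp
  have h2 : (ζ ^ 2).re = ζ.re ^ 2 - ζ.im ^ 2 := by
    rw [pow_two, Complex.mul_re]; ring
  rw [h1, h2]
  ring

end PkgHD

open PkgHD in
theorem pHD (hMP : MPStm) (hMVA : MVAStm) : HDStm := by
  intro n u hu a b r A M hr hAM hA hM y hy0 hyr
  rcases hy0.eq_or_lt with h0 | hypos
  · have h1 := hA 0 (by simpa using hr.le)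
    rw [← h0]
    simpa using h1
  rcases hyr.eq_or_lt with h0 | hylt
  · have h1 := hM ((y : ℂ) * Complex.I) (by
      rw [norm_mul, Complex.norm_I, mul_one, Complex.norm_real, Real.norm_of_nonneg hypos.le]
      exact hyr)
    refine h1.trans ?_
    rw [EReal.coe_le_coe_iff, h0]
    have : 2 * r / r = 2 := by field_simp
    rw [this]
    linarith
  set Ω : Set ℂ := {ζ : ℂ | ‖ζ‖ < r ∧ 0 < ζ.im} with hΩ
  have hopen : IsOpen Ω := by
    apply (isOpen_lt continuous_norm continuous_const).inter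
      (isOpen_lt continuous_const Complex.continuous_im)
  have hbd : Bornology.IsBounded Ω := by
    apply (Metric.isBounded_ball (x := (0 : ℂ)) (r := r)).subset
    intro ζ hζ
    rw [mem_ball_zero_iff]
    exact hζ.1
  have hcont : Continuous (hh r A M) := by
    unfold hh
    have h1 := Complex.continuous_im
    have h2 := Complex.continuous_re
    fun_prop
  have hcl : closure Ω ⊆ {ζ : ℂ | ‖ζ‖ ≤ r ∧ 0 ≤ ζ.im} := by
    apply closure_minimal
    · intro ζ hζ
      exact ⟨hζ.1.le, hζ.2.le⟩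
    · exact (isClosed_le continuous_norm continuous_const).inter
        (isClosed_le continuous_const Complex.continuous_im)
  have key := hMP n u hu a b Ω (hh r A M) hopen hbd hcont.continuousOn ?_ ?_
    ((y : ℂ) * Complex.I) ?_
  · refine key.trans ?_
    rw [EReal.coe_le_coe_iff]
    unfold hh
    have h1 : ((y : ℂ) * Complex.I).im = y := by simp
    have h2 : ((y : ℂ) * Complex.I).re = 0 := by simp
    rw [h1, h2]
    have h3 : (0 ^ 2 - y ^ 2) / r ^ 2 ≤ 0 := by
      apply div_nonpos_of_nonpos_of_nonneg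
      · nlinarith
      · positivity
    have h4 : 0 ≤ M - A := by linarith
    nlinarith
  · intro ζ _
    refine ⟨1, one_pos, fun s hs hs1 => ?_⟩
    have h1 := hMVA (ff r A M) ζ 1 (by unfold ff; fun_prop) s hs hs1
    simp_rw [ff_re] at h1
    exact h1.le
  · intro ζ hζ
    rw [hopen.frontier_eq] at hζ
    obtain ⟨h1, h2⟩ := hcl hζ.1
    have hns : ‖ζ‖ ^ 2 = ζ.re ^ 2 + ζ.im ^ 2 := by
      rw [← Complex.normSq_eq_norm_sq, Complex.normSq_apply]; ring
    have h4 : 0 ≤ M - A := by linarith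
    rcases h2.eq_or_lt with h3 | h3
    · -- on the diameter
      have hζr : ζ = ((ζ.re : ℝ) : ℂ) := by
        apply Complex.ext
        · simp
        · simp [← h3]
      have h5 := hA ζ.re ((Complex.abs_re_le_norm ζ).trans h1)
      rw [← hζr] at h5
      refine h5.trans ?_
      rw [EReal.coe_le_coe_iff]
      unfold hh
      rw [← h3]
      have h6 : 0 ≤ 2 * 0 / r + (ζ.re ^ 2 - 0 ^ 2) / r ^ 2 := by
        have : 0 ≤ ζ.re ^ 2 / r ^ 2 := by positivity
        simpa using this
      nlinarith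
    · have h5 : ‖ζ‖ = r := by
        apply le_antisymm h1
        by_contra hlt
        rw [not_le] at hlt
        exact hζ.2 ⟨hlt, h3⟩
      refine (hM ζ h1).trans ?_
      rw [EReal.coe_le_coe_iff]
      unfold hh
      have h6 : 1 ≤ 2 * ζ.im / r + (ζ.re ^ 2 - ζ.im ^ 2) / r ^ 2 := by
        rw [h5] at hns
        have h7 : ζ.im ≤ r := by
          have := (le_abs_self ζ.im).trans (Complex.abs_im_le_norm ζ)
          rw [h5] at this
          exact this
        rw [div_add_div _ _ hr.ne' (by positivity), le_div_iff₀ (by positivity)]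
        nlinarith [mul_nonneg (mul_nonneg h2 hr.le) (sub_nonneg.2 h7)]
      nlinarith
  · refine ⟨?_, ?_⟩
    · rw [norm_mul, Complex.norm_I, mul_one, Complex.norm_real, Real.norm_of_nonneg hypos.le]
      exact hylt
    · simpa using hypos

end T2H76.PR
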