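import Pool.Agent.T2H76.PR.Stm

/-!
# Package INT: interior points
-/

set_option autoImplicit false

open Filter Topology Metric Set

namespace T2H76.PR

theorem pINT (hTAY : TAYStm) (hRIN : RINStm) : INTStm := by
  intro n m M D hm hM hD p₀ hp₀
  obtain ⟨O, hO, hDO⟩ := hD.rel_open
  have hp₀M : p₀ ∈ M := by
    have : p₀ ∈ M ∩ O := hDO ▸ hp₀
    exact this.1
  have hp₀O : p₀ ∈ O := by
    have : p₀ ∈ M ∩ O := hDO ▸ hp₀
    exact this.2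
  obtain ⟨U, W, ψ, φ, hp₀U, hP⟩ := hM.patch p₀ hp₀M
  set x₀ : Rm m := φ p₀ with hx₀
  have hx₀W : x₀ ∈ W := hP.maps' p₀ ⟨hp₀M, hp₀U⟩
  have hψx₀ : ψ x₀ = p₀ := hP.right p₀ ⟨hp₀M, hp₀U⟩
  obtain ⟨K₁, hK₁, ρ₁, hρ₁, hT⟩ := hTAY n m ψ W x₀ hP.openW hP.smooth hx₀W
  have hΛc : ContinuousAt (fun x => fderiv ℝ ψ x) x₀ :=
    (hP.smooth.continuousOn_fderiv_of_isOpen hP.openW (by norm_num)).continuousAt
      (hP.openW.mem_nhds hx₀W)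
  obtain ⟨K₂, hK₂, ρ₂, hρ₂, hR⟩ := hRIN n m (fun x => fderiv ℝ ψ x) x₀ hΛc
    (fun w => hM.generic U W ψ φ hP x₀ hx₀W w)
  -- continuity of `ψ` at `x₀`
  have hψc : ContinuousAt ψ x₀ := hP.smooth.continuousOn.continuousAt (hP.openW.mem_nhds hx₀W)
  have hO' : ∀ᶠ x in 𝓝 x₀, ψ x ∈ O := hψc.eventually (by
    rw [hψx₀]
    exact hO.mem_nhds hp₀O)
  obtain ⟨ρ₃, hρ₃, hρ₃O⟩ := Metric.eventually_nhds_iff.1 hO'
  set σ : ℝ := min ρ₁ (min ρ₂ (ρ₃ / 3)) with hσ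
  have hσ0 : 0 < σ := by
    apply lt_min hρ₁ (lt_min hρ₂ (by linarith))
  have hσ1 : σ ≤ ρ₁ := min_le_left _ _
  have hσ2 : σ ≤ ρ₂ := (min_le_right _ _).trans (min_le_left _ _)
  have hσ3 : σ ≤ ρ₃ / 3 := (min_le_right _ _).trans (min_le_right _ _)
  -- `φ p` is near `x₀` for `p` near `p₀`
  have hφc : ContinuousWithinAt φ (M ∩ U) p₀ := hP.cont p₀ ⟨hp₀M, hp₀U⟩
  obtain ⟨δ, hδ, hδφ⟩ := Metric.continuousWithinAt_iff.1 hφc σ hσ0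
  obtain ⟨δ', hδ', hδU⟩ := Metric.isOpen_iff.1 hP.openU p₀ hp₀U
  -- a unit vector
  obtain ⟨ν, hν⟩ : ∃ ν : Rm m, ‖ν‖ = 1 := by
    refine ⟨EuclideanSpace.single ⟨0, hm⟩ (1 : ℝ), ?_⟩
    simp
  refine ⟨max K₁ K₂, le_max_of_le_left hK₁, σ, hσ0, min δ δ', lt_min hδ hδ', ?_⟩
  intro p hp hpn
  have hpM : p ∈ M := hD.sub hp
  have hpU : p ∈ U := hδU (by
    rw [Metric.mem_ball, dist_eq_norm]
    exact lt_of_lt_of_le hpn (min_le_right _ _))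
  set x : Rm m := φ p with hx
  have hψx : ψ x = p := hP.right p ⟨hpM, hpU⟩
  have hxx₀ : ‖x - x₀‖ < σ := by
    have h1 := hδφ (x := p) ⟨hpM, hpU⟩ (by
      rw [dist_eq_norm]
      exact lt_of_lt_of_le hpn (min_le_left _ _))
    rwa [dist_eq_norm] at h1
  obtain ⟨hL, hTx⟩ := hT x (by linarith)
  refine ⟨m, fderiv ℝ ψ x, ν, hν, hL.trans (le_max_left _ _), ?_, ?_⟩
  · intro w
    obtain ⟨ξ, η, h1, h2, h3⟩ := hR x (by linarith) w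
    have h4 : K₂ * ‖w‖ ≤ max K₁ K₂ * ‖w‖ :=
      mul_le_mul_of_nonneg_right (le_max_right _ _) (norm_nonneg _)
    exact ⟨ξ, η, h1.trans h4, h2.trans h4, h3⟩
  · intro ξ hξ _
    obtain ⟨hxW, hquad⟩ := hTx ξ (by linarith)
    have hmemD : ψ (x + ξ) ∈ D := by
      rw [hDO]
      refine ⟨(hP.maps _ hxW).1, ?_⟩
      apply hρ₃O
      rw [dist_eq_norm]
      have h1 : x + ξ - x₀ = (x - x₀) + ξ := by abel
      rw [h1]
      have h2 := norm_add_le (x - x₀) ξ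
      linarith
    have h1 : infDist (p + fderiv ℝ ψ x ξ) (closure D) ≤
        dist (p + fderiv ℝ ψ x ξ) (ψ (x + ξ)) :=
      infDist_le_dist_of_mem (subset_closure hmemD)
    have h2 : dist (p + fderiv ℝ ψ x ξ) (ψ (x + ξ)) =
        ‖ψ (x + ξ) - ψ x - fderiv ℝ ψ x ξ‖ := by
      rw [dist_comm, dist_eq_norm, hψx]
      congr 1
      abel
    rw [h2] at h1
    have h3 : K₁ * ‖ξ‖ ^ 2 ≤ max K₁ K₂ * ‖ξ‖ ^ 2 :=
      mul_le_mul_of_nonneg_right (le_max_left _ _) (sq_nonneg _)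
    exact (h1.trans hquad).trans h3

end T2H76.PR
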