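import Pool.Agent.T2H76.PR.Stm

/-!
Package ITE of project PR.
-/

open Filter Topology Metric Set

namespace T2H76.PR

theorem pITE (hSTB : STBStm) : ITEStm := by
  intro n u E K r₀ κ M hu hE hne hK hκ hKκ hr hM hcone hE0 hEM
  -- the constant q
  obtain ⟨q, hq0, hq8⟩ : ∃ q : ℝ, 0 < q ∧ q ^ 8 = 1 / 2 := by
    refine ⟨(1 / 2 : ℝ) ^ ((1 : ℝ) / 8), by positivity, ?_⟩
    rw [← Real.rpow_natCast, ← Real.rpow_mul (by norm_num)]
    norm_num
  have hq1 : q ≤ 277 / 300 := by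
    by_contra h
    push Not at h
    have : (277 / 300 : ℝ) ^ 8 < q ^ 8 := pow_lt_pow_left₀ h (by norm_num) (by norm_num)
    rw [hq8] at this
    norm_num at this
  have hsmall : ∀ κ' : ℝ, 0 < κ' → κ' ≤ κ → 9 * K * κ' ^ 2 ≤ 1 ∧ κ' ^ 4 ≤ r₀ ∧ κ' ^ 8 ≤ 1 := by
    intro κ' h0 h1
    have h2 : κ' ^ 2 ≤ κ ^ 2 := pow_le_pow_left₀ h0.le h1 2
    have h4 : κ' ^ 4 ≤ κ ^ 4 := pow_le_pow_left₀ h0.le h1 4
    have h3 : 9 * K * κ' ^ 2 ≤ 1 := by nlinarith
    refine ⟨h3, h4.trans hr, ?_⟩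
    refine pow_le_one₀ h0.le ?_
    nlinarith
  -- one step
  have step : ∀ κ' A : ℝ, 0 < κ' → κ' ≤ κ → 0 ≤ A → A ≤ M →
      (∀ z, infDist z E ≤ κ' ^ 8 / 2 → u z ≤ ((A : ℝ) : EReal)) →
      ∀ z, infDist z E ≤ κ' ^ 8 → u z ≤ ((A + 23 * K * M * κ' : ℝ) : EReal) := by
    intro κ' A h0 h1 hA0 hAM hA z hz
    obtain ⟨s1, s2, s3⟩ := hsmall κ' h0 h1
    obtain ⟨p, hp, hpz⟩ := hE.exists_infDist_eq_dist hne z
    have h2 := hSTB n u E p K r₀ κ' A M hu hK h0 s1 s2 hAM (hcone p hp) hA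
      (fun w hw => hEM w ((infDist_le_dist_of_mem hp).trans (by rwa [dist_eq_norm]))) z
      (by rw [← dist_eq_norm, ← hpz]; exact hz)
    refine h2.trans (EReal.coe_le_coe_iff.2 ?_)
    have : 0 ≤ A * (23 * K * κ') := by positivity
    nlinarith
  -- induction
  have ind : ∀ N : ℕ, ∀ κ' A : ℝ, 0 < κ' → κ' ≤ κ → 0 ≤ A → A ≤ M →
      (∀ z, infDist z E ≤ (κ' * q ^ N) ^ 8 → u z ≤ ((A : ℝ) : EReal)) →
      ∀ z, infDist z E ≤ κ' ^ 8 → u z ≤ ((A + 300 * K * M * κ' : ℝ) : EReal) := by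
    intro N
    induction N with
    | zero =>
      intro κ' A h0 h1 hA0 hAM hA z hz
      refine (hA z (by simpa using hz)).trans (EReal.coe_le_coe_iff.2 ?_)
      have : 0 ≤ 300 * K * M * κ' := by positivity
      linarith
    | succ N ih =>
      intro κ' A h0 h1 hA0 hAM hA z hz
      have hκq : κ' * q ≤ κ := by
        have : κ' * q ≤ κ' * 1 := by gcongr; linarith
        linarith
      have e1 : κ' * q ^ (N + 1) = κ' * q * q ^ N := by ring
      have h2 := ih (κ' * q) A (by positivity) hκq hA0 hAM (fun w hw => hA w (by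
        rw [e1]
        exact hw))
      obtain ⟨s1, s2, s3⟩ := hsmall κ' h0 h1
      have hA1 : 0 ≤ A + 300 * K * M * (κ' * q) := by positivity
      have h3 := step κ' (min (A + 300 * K * M * (κ' * q)) M) h0 h1 (le_min hA1 hM)
        (min_le_right _ _) (fun w hw => by
          have h4 : infDist w E ≤ (κ' * q) ^ 8 := by
            rw [mul_pow, hq8]; linarith
          rw [EReal.coe_strictMono.monotone.map_min]
          refine le_min (h2 w h4) (hEM w ?_)
          have : 0 ≤ κ' ^ 8 := by positivity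
          linarith) z hz
      refine h3.trans (EReal.coe_le_coe_iff.2 ?_)
      have h5 : min (A + 300 * K * M * (κ' * q)) M ≤ A + 300 * K * M * (κ' * q) := min_le_left _ _
      have h6 : 0 ≤ K * M * κ' := by positivity
      nlinarith
  intro z hz
  refine not_lt.1 fun hlt => ?_
  obtain ⟨r, hr1, hr2⟩ := EReal.lt_iff_exists_real_btwn.1 hlt
  rw [EReal.coe_lt_coe_iff] at hr1
  set ε : ℝ := r - 300 * K * M * κ with hε
  have hε0 : 0 < ε := by linarith
  have hopen : IsOpen {w : Cn n | u w < ((ε : ℝ) : EReal)} := hu.usc.isOpen_preimage _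
  have hsub : E ⊆ {w : Cn n | u w < ((ε : ℝ) : EReal)} := by
    intro w hw
    refine (hE0 w hw).trans_lt ?_
    exact_mod_cast hε0
  obtain ⟨δ, hδ, hδs⟩ := hE.exists_cthickening_subset_open hopen hsub
  obtain ⟨N, hN⟩ := exists_pow_lt_of_lt_one hδ (show (1 / 2 : ℝ) < 1 by norm_num)
  obtain ⟨s1, s2, s3⟩ := hsmall κ hκ le_rfl
  have hNq : (κ * q ^ N) ^ 8 ≤ δ ∧ (κ * q ^ N) ^ 8 ≤ 1 := by
    have e : (κ * q ^ N) ^ 8 = κ ^ 8 * (1 / 2) ^ N := by
      rw [mul_pow, ← pow_mul, mul_comm N 8, pow_mul, hq8]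
    have h1 : (0 : ℝ) ≤ (1 / 2) ^ N := by positivity
    have h2 : ((1 : ℝ) / 2) ^ N ≤ 1 := pow_le_one₀ (by norm_num) (by norm_num)
    have h3 : 0 ≤ κ ^ 8 := by positivity
    rw [e]
    constructor <;> nlinarith
  have h1 := ind N κ (min ε M) hκ le_rfl (le_min hε0.le hM) (min_le_right _ _) (fun w hw => by
    rw [EReal.coe_strictMono.monotone.map_min]
    refine le_min ?_ (hEM w (hw.trans hNq.2))
    obtain ⟨p, hp, hpw⟩ := hE.exists_infDist_eq_dist hne w
    have : w ∈ cthickening δ E := by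
      rw [hE.cthickening_eq_biUnion_closedBall hδ.le]
      refine mem_biUnion hp ?_
      rw [mem_closedBall, ← hpw]
      exact hw.trans hNq.1
    exact (hδs this).le) z hz
  have h2 : u z ≤ ((r : ℝ) : EReal) := by
    refine h1.trans (EReal.coe_le_coe_iff.2 ?_)
    have := min_le_left ε M
    linarith
  exact absurd hr2 (not_lt.2 h2)

end T2H76.PR
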