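import Pool.Agent.T2H76.PR.Stm

set_option autoImplicit false

open Filter Topology Metric Set

namespace T2H76.PR

theorem pMON : MONStm := by
  intro m G W x₀ hW hx₀ hG hne
  set g : Rm m := (InnerProductSpace.toDual ℝ (Rm m)).symm (fderiv ℝ G x₀) with hg
  have hgi : ∀ ξ : Rm m, fderiv ℝ G x₀ ξ = inner ℝ g ξ := by
    intro ξ
    rw [hg, InnerProductSpace.toDual_symm_apply]
  have hg0 : g ≠ 0 := by
    intro h
    apply hne
    ext ξ
    rw [hgi, h]
    simp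
  have hgn : 0 < ‖g‖ := norm_pos_iff.2 hg0
  have hcont : ContinuousOn (fderiv ℝ G) W := hG.continuousOn_fderiv_of_isOpen hW le_rfl
  have hca : ContinuousAt (fderiv ℝ G) x₀ := hcont.continuousAt (hW.mem_nhds hx₀)
  have hev : ∀ᶠ y in 𝓝 x₀, dist (fderiv ℝ G y) (fderiv ℝ G x₀) < ‖g‖ / 4 ∧ y ∈ W :=
    (Metric.tendsto_nhds.1 hca (‖g‖ / 4) (by positivity)).and (hW.mem_nhds hx₀)
  obtain ⟨R, hR, hball⟩ := Metric.eventually_nhds_iff.1 hev
  refine ⟨‖g‖⁻¹ • g, ?_, R, hR, fun y hy => (hball hy).2, fun x ξ hx hxξ hcone hξ => ?_⟩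
  · rw [norm_smul, norm_inv, norm_norm, inv_mul_cancel₀ hgn.ne']
  · have hξn : 0 < ‖ξ‖ := norm_pos_iff.2 hξ
    have h1 := Convex.norm_image_sub_le_of_norm_fderiv_le' (𝕜 := ℝ) (f := G) (C := ‖g‖ / 4)
      (s := ball x₀ R) (x := x) (y := x + ξ) (φ := fderiv ℝ G x₀)
      (fun y hy => (hG.differentiableOn (by norm_num)).differentiableAt (hW.mem_nhds (hball hy).2))
      (fun y hy => by
        have := (hball hy).1
        rw [dist_eq_norm] at this
        exact this.le) (convex_ball x₀ R) hx hxξ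
    rw [add_sub_cancel_left, hgi, Real.norm_eq_abs, abs_le] at h1
    have h2 : inner ℝ ξ (‖g‖⁻¹ • g) = ‖g‖⁻¹ * inner ℝ g ξ := by
      rw [real_inner_smul_right, real_inner_comm]
    rw [h2] at hcone
    have h3 : ‖g‖ * (1 / 2 * ‖ξ‖) ≤ inner ℝ g ξ := by
      have := mul_le_mul_of_nonneg_left hcone hgn.le
      rwa [← mul_assoc ‖g‖ ‖g‖⁻¹, mul_inv_cancel₀ hgn.ne', one_mul] at this
    have h4 : 0 < ‖g‖ * ‖ξ‖ := mul_pos hgn hξn
    linarith [h1.1]

end T2H76.PR
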