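import Pool.Agent.T2H76.PR.Stm

open Filter Topology Metric Set

namespace T2H76.PR

namespace PkgMP

lemma re_circ (ζ : ℂ) (s t : ℝ) :
    (ζ + (s : ℂ) * Complex.exp ((t : ℂ) * Complex.I)).re = ζ.re + s * Real.cos t := by
  rw [Complex.add_re, Complex.re_ofReal_mul, Complex.exp_ofReal_mul_I_re]

lemma im_circ (ζ : ℂ) (s t : ℝ) :
    (ζ + (s : ℂ) * Complex.exp ((t : ℂ) * Complex.I)).im = ζ.im + s * Real.sin t := by
  rw [Complex.add_im, Complex.im_ofReal_mul, Complex.exp_ofReal_mul_I_im]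

lemma sq_circ (ζ : ℂ) (s t : ℝ) :
    ‖ζ + (s : ℂ) * Complex.exp ((t : ℂ) * Complex.I)‖ ^ 2 =
      (‖ζ‖ ^ 2 + s ^ 2) + (2 * s * ζ.re) * Real.cos t + (2 * s * ζ.im) * Real.sin t := by
  rw [← Complex.normSq_eq_norm_sq, ← Complex.normSq_eq_norm_sq, Complex.normSq_apply,
    Complex.normSq_apply, re_circ, im_circ]
  linear_combination (s ^ 2) * Real.sin_sq_add_cos_sq t

lemma avg_sq (ζ : ℂ) (s : ℝ) :
    ∫ t in (0:ℝ)..(2 * Real.pi), ‖ζ + (s : ℂ) * Complex.exp ((t : ℂ) * Complex.I)‖ ^ 2 =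
      2 * Real.pi * (‖ζ‖ ^ 2 + s ^ 2) := by
  simp_rw [sq_circ]
  rw [intervalIntegral.integral_add, intervalIntegral.integral_add,
    intervalIntegral.integral_const_mul, intervalIntegral.integral_const_mul, integral_cos,
    integral_sin, intervalIntegral.integral_const]
  · simp
  · exact (continuous_const).intervalIntegrable _ _
  · exact (by fun_prop : Continuous fun t : ℝ => (2 * s * ζ.re) * Real.cos t).intervalIntegrable _ _
  · exact (by fun_prop : Continuous fun t : ℝ => (‖ζ‖ ^ 2 + s ^ 2) +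
      (2 * s * ζ.re) * Real.cos t).intervalIntegrable _ _
  · exact (by fun_prop : Continuous fun t : ℝ => (2 * s * ζ.im) * Real.sin t).intervalIntegrable _ _

lemma avg_alg (J e Q c : ℝ) : (2 * Real.pi)⁻¹ * (J - e * (2 * Real.pi * Q) + 2 * Real.pi * c) =
    (2 * Real.pi)⁻¹ * J - e * Q + c := by
  have h : (2 * Real.pi)⁻¹ * (2 * Real.pi) = 1 := inv_mul_cancel₀ (by positivity)
  linear_combination (-(e * Q) + c) * h

end PkgMP

open PkgMP in
theorem pMP (hSM : SMStm) : MPStm := by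
  intro n u hu a b Ω h hΩ hbd hh hmean hfr ζ₁ hζ₁
  by_contra hcon
  rw [not_le] at hcon
  obtain ⟨R, hR⟩ := hbd.closure.exists_norm_le
  have hR0 : 0 ≤ R := (norm_nonneg ζ₁).trans (hR ζ₁ (subset_closure hζ₁))
  obtain ⟨y, hy1, hy2⟩ := EReal.lt_iff_exists_real_btwn.1 hcon
  have hy1' : h ζ₁ < y := by exact_mod_cast hy1
  set ε : ℝ := (y - h ζ₁) / (R ^ 2 + 1) with hε
  have hεpos : 0 < ε := by
    apply div_pos (by linarith)
    positivity
  have hεR : ε * R ^ 2 ≤ y - h ζ₁ := by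
    rw [hε, div_mul_eq_mul_div, div_le_iff₀ (by positivity)]
    nlinarith
  -- the function
  set G : ℂ → ℝ := fun ζ => -h ζ + ε * ‖ζ‖ ^ 2 with hG
  set F : ℂ → EReal := fun ζ => u (a + ζ • b) + ((G ζ : ℝ) : EReal) with hF
  have hGc : ContinuousOn G (closure Ω) := by
    apply hh.neg.add
    fun_prop
  have hFusc : UpperSemicontinuousOn F (closure Ω) := by
    apply UpperSemicontinuousOn.add'
    · have : UpperSemicontinuous (fun ζ : ℂ => u (a + ζ • b)) :=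
        hu.usc.comp (by fun_prop)
      exact this.upperSemicontinuousOn _
    · exact ContinuousOn.upperSemicontinuousOn (continuous_coe_real_ereal.comp_continuousOn hGc)
    · intro x _
      exact EReal.continuousAt_add (Or.inr (EReal.coe_ne_bot _)) (Or.inr (EReal.coe_ne_top _))
  have hcpt : IsCompact (closure Ω) := hbd.isCompact_closure
  obtain ⟨ζ₀, hζ₀, hmax⟩ := UpperSemicontinuousOn.exists_isMaxOn ⟨ζ₁, subset_closure hζ₁⟩ hcpt hFusc
  have hF1 : (((y - h ζ₁) : ℝ) : EReal) < F ζ₁ := by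
    have h1 : ((y : ℝ) : EReal) + ((G ζ₁ : ℝ) : EReal) < F ζ₁ := by
      apply EReal.add_lt_add_of_lt_of_le hy2 le_rfl
      · exact EReal.coe_ne_bot _
      · exact EReal.coe_ne_top _
    refine lt_of_le_of_lt ?_ h1
    rw [← EReal.coe_add, EReal.coe_le_coe_iff, hG]
    have : 0 ≤ ε * ‖ζ₁‖ ^ 2 := by positivity
    simp only
    linarith
  have hF0 : (((y - h ζ₁) : ℝ) : EReal) < F ζ₀ := lt_of_lt_of_le hF1 (hmax (subset_closure hζ₁))
  have hζΩ : ζ₀ ∈ Ω := by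
    by_contra hnot
    have hfront : ζ₀ ∈ frontier Ω := by
      rw [hΩ.frontier_eq]; exact ⟨hζ₀, hnot⟩
    have h1 := hfr ζ₀ hfront
    have h2 : F ζ₀ ≤ ((h ζ₀ : ℝ) : EReal) + ((G ζ₀ : ℝ) : EReal) := add_le_add_left h1 _
    rw [← EReal.coe_add] at h2
    have h3 := lt_of_lt_of_le hF0 h2
    rw [EReal.coe_lt_coe_iff, hG] at h3
    simp only at h3
    have h4 : ‖ζ₀‖ ^ 2 ≤ R ^ 2 := pow_le_pow_left₀ (norm_nonneg _) (hR ζ₀ hζ₀) 2
    nlinarith
  -- the value at the maximum is real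
  have hne_top : u (a + ζ₀ • b) ≠ ⊤ := (hu.lt_top _).ne
  have hne_bot : u (a + ζ₀ • b) ≠ ⊥ := by
    intro hb
    have : F ζ₀ = ⊥ := by
      rw [hF]; simp only; rw [hb, EReal.bot_add]
    rw [this] at hF0
    exact absurd hF0 (not_lt_bot)
  set U₀ : ℝ := (u (a + ζ₀ • b)).toReal with hU₀
  have hU : ((U₀ : ℝ) : EReal) = u (a + ζ₀ • b) := EReal.coe_toReal hne_top hne_bot
  have hle : ∀ ζ ∈ closure Ω, u (a + ζ • b) ≤
      ((h ζ - ε * ‖ζ‖ ^ 2 + (U₀ + G ζ₀) : ℝ) : EReal) := by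
    intro ζ hζ
    have h1 : F ζ ≤ F ζ₀ := hmax hζ
    have h2 : F ζ₀ = ((U₀ + G ζ₀ : ℝ) : EReal) := by
      show u (a + ζ₀ • b) + ((G ζ₀ : ℝ) : EReal) = _
      rw [EReal.coe_add U₀ (G ζ₀), hU]
    rw [h2] at h1
    have h3 : u (a + ζ • b) + ((G ζ : ℝ) : EReal) ≤ ((U₀ + G ζ₀ : ℝ) : EReal) := h1
    induction hv : u (a + ζ • b) with
    | bot => exact bot_le
    | top => exact absurd hv (hu.lt_top _).ne
    | coe v =>
      rw [hv, ← EReal.coe_add, EReal.coe_le_coe_iff] at h3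
      rw [EReal.coe_le_coe_iff]
      have h4 : G ζ = -h ζ + ε * ‖ζ‖ ^ 2 := rfl
      rw [h4] at h3
      linarith
  obtain ⟨ρ, hρ, hmρ⟩ := hmean ζ₀ hζΩ
  obtain ⟨δ, hδ, hball⟩ := Metric.isOpen_iff.1 hΩ ζ₀ hζΩ
  set s : ℝ := min ρ δ / 2 with hs
  have hspos : 0 < s := by
    have : 0 < min ρ δ := lt_min hρ hδ
    positivity
  have hsρ : s < ρ := by
    have : min ρ δ ≤ ρ := min_le_left _ _
    linarith
  have hsδ : s < δ := by
    have : min ρ δ ≤ δ := min_le_right _ _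
    linarith
  have hcirc : ∀ t : ℝ, ζ₀ + (s : ℂ) * Complex.exp ((t : ℂ) * Complex.I) ∈ Ω := by
    intro t
    apply hball
    rw [mem_ball, dist_eq_norm, add_sub_cancel_left, norm_mul, Complex.norm_exp_ofReal_mul_I,
      mul_one, Complex.norm_real, Real.norm_of_nonneg hspos.le]
    exact hsδ
  have hhc : Continuous fun t : ℝ => h (ζ₀ + (s : ℂ) * Complex.exp ((t : ℂ) * Complex.I)) := by
    have h1 : ContinuousOn h Ω := hh.mono subset_closure
    exact h1.comp_continuous (by fun_prop) hcirc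
  have hsqc : Continuous fun t : ℝ =>
      ε * ‖ζ₀ + (s : ℂ) * Complex.exp ((t : ℂ) * Complex.I)‖ ^ 2 := by fun_prop
  have key := hSM n u hu (a + ζ₀ • b) ((s : ℂ) • b)
    (fun t => h (ζ₀ + (s : ℂ) * Complex.exp ((t : ℂ) * Complex.I)) -
      ε * ‖ζ₀ + (s : ℂ) * Complex.exp ((t : ℂ) * Complex.I)‖ ^ 2 + (U₀ + G ζ₀))
    ((hhc.sub hsqc).add continuous_const) (by
      intro t
      have h1 := hle _ (subset_closure (hcirc t))
      have h2 : a + ζ₀ • b + Complex.exp ((t : ℂ) * Complex.I) • ((s : ℂ) • b) =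
          a + (ζ₀ + (s : ℂ) * Complex.exp ((t : ℂ) * Complex.I)) • b := by
        rw [add_smul, smul_smul, mul_comm (Complex.exp _) (s : ℂ), add_assoc]
      rw [h2]
      exact h1)
  rw [← hU, EReal.coe_le_coe_iff] at key
  have hint : ∫ t in (0:ℝ)..(2 * Real.pi),
      (h (ζ₀ + (s : ℂ) * Complex.exp ((t : ℂ) * Complex.I)) -
      ε * ‖ζ₀ + (s : ℂ) * Complex.exp ((t : ℂ) * Complex.I)‖ ^ 2 + (U₀ + G ζ₀)) =
      (∫ t in (0:ℝ)..(2 * Real.pi), h (ζ₀ + (s : ℂ) * Complex.exp ((t : ℂ) * Complex.I))) -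
        ε * (2 * Real.pi * (‖ζ₀‖ ^ 2 + s ^ 2)) + 2 * Real.pi * (U₀ + G ζ₀) := by
    rw [intervalIntegral.integral_add, intervalIntegral.integral_sub,
      intervalIntegral.integral_const_mul, avg_sq, intervalIntegral.integral_const]
    · simp
    · exact hhc.intervalIntegrable _ _
    · exact hsqc.intervalIntegrable _ _
    · exact (hhc.sub hsqc).intervalIntegrable _ _
    · exact (continuous_const).intervalIntegrable _ _
  rw [hint] at key
  have hm := hmρ s hspos hsρ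
  have hpi := Real.pi_pos
  have h5 : (2 * Real.pi)⁻¹ * ((∫ t in (0:ℝ)..(2 * Real.pi),
      h (ζ₀ + (s : ℂ) * Complex.exp ((t : ℂ) * Complex.I))) -
        ε * (2 * Real.pi * (‖ζ₀‖ ^ 2 + s ^ 2)) + 2 * Real.pi * (U₀ + G ζ₀)) =
      (2 * Real.pi)⁻¹ * (∫ t in (0:ℝ)..(2 * Real.pi),
      h (ζ₀ + (s : ℂ) * Complex.exp ((t : ℂ) * Complex.I))) -
        ε * (‖ζ₀‖ ^ 2 + s ^ 2) + (U₀ + G ζ₀) := avg_alg _ _ _ _
  rw [h5] at key
  have h6 : G ζ₀ = -h ζ₀ + ε * ‖ζ₀‖ ^ 2 := rfl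
  rw [h6] at key
  have h7 : 0 < ε * s ^ 2 := by positivity
  nlinarith

end T2H76.PR
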