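import Pool.Agent.T2H76.PR.Stm

set_option autoImplicit false

open Filter Topology Metric Set

namespace T2H76.PR

theorem pMVA : MVAStm := by
  intro f c ρ hf s hs hsρ
  have hd : DiffContOnCl ℂ f (ball c |s|) := by
    rw [abs_of_pos hs]
    exact hf.diffContOnCl_ball (closedBall_subset_ball hsρ)
  have h1 := hd.circleAverage
  have h2 := congrArg Complex.re h1
  rw [← h2, Real.circleAverage]
  have hcont : Continuous fun t : ℝ => f (circleMap c s t) := by
    have h3 : ContinuousOn f (sphere c |s|) := by
      refine hf.continuousOn.mono ?_
      rw [abs_of_pos hs]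
      exact sphere_subset_closedBall.trans (closedBall_subset_ball hsρ)
    exact h3.comp_continuous (continuous_circleMap c s) fun t => circleMap_mem_sphere' c s t
  have h4 := Complex.reCLM.intervalIntegral_comp_comm (μ := MeasureTheory.volume)
    (hcont.intervalIntegrable 0 (2 * Real.pi))
  simp only [Complex.reCLM_apply] at h4
  rw [Complex.smul_re, ← h4, smul_eq_mul]
  rfl

end T2H76.PR
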