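import Pool.Agent.T2H76.PR.Stm

/-!
# Package RIN
-/

set_option autoImplicit false

open Filter Topology Metric Set

namespace T2H76.PR

/-- the map `(ξ, η) ↦ A ξ + I • A η` -/
noncomputable def PkgRIN.TT {n m : ℕ} (A : Rm m →L[ℝ] Cn n) : (Rm m × Rm m) →ₗ[ℝ] Cn n where
  toFun p := A p.1 + Complex.I • A p.2
  map_add' p q := by
    simp only [Prod.fst_add, Prod.snd_add, map_add, smul_add]
    abel
  map_smul' c p := by
    simp only [Prod.smul_fst, Prod.smul_snd, map_smul, RingHom.id_apply, smul_add]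
    rw [smul_comm]

theorem PkgRIN.TT_apply {n m : ℕ} (A : Rm m →L[ℝ] Cn n) (p : Rm m × Rm m) :
    PkgRIN.TT A p = A p.1 + Complex.I • A p.2 := rfl

theorem pRIN : RINStm := by
  intro n m Λ x₀ hcont hsurj
  have hT : LinearMap.range (PkgRIN.TT (Λ x₀)) = ⊤ := by
    rw [LinearMap.range_eq_top]
    intro w
    obtain ⟨ξ, η, h⟩ := hsurj w
    exact ⟨(ξ, η), h.symm⟩
  obtain ⟨R, hR⟩ := (PkgRIN.TT (Λ x₀)).exists_rightInverse_of_surjective hT
  let R' : Cn n →L[ℝ] (Rm m × Rm m) := LinearMap.toContinuousLinearMap R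
  have hR' : ∀ v, R' v = R v := fun v => rfl
  have hid : ∀ v, Λ x₀ (R v).1 + Complex.I • Λ x₀ (R v).2 = v := by
    intro v
    have h1 := LinearMap.congr_fun hR v
    exact h1
  set B : ℝ := ‖R'‖ with hB
  have hB0 : 0 ≤ B := norm_nonneg _
  have hRn : ∀ v, ‖(R v).1‖ ≤ B * ‖v‖ ∧ ‖(R v).2‖ ≤ B * ‖v‖ := by
    intro v
    have h1 : ‖R v‖ ≤ B * ‖v‖ := by
      rw [← hR']
      exact R'.le_opNorm v
    exact ⟨(norm_fst_le _).trans h1, (norm_snd_le _).trans h1⟩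
  have hpos : 0 < 1 / (4 * (B + 1)) := by positivity
  obtain ⟨ρ, hρ, hball⟩ := Metric.continuousAt_iff.1 hcont _ hpos
  refine ⟨2 * B + 1, by linarith, ρ / 2, by linarith, ?_⟩
  intro x hx w
  have hx' : ‖Λ x - Λ x₀‖ < 1 / (4 * (B + 1)) := by
    have h1 := hball (x := x) (by rw [dist_eq_norm]; linarith)
    rwa [dist_eq_norm] at h1
  -- the perturbed map
  let S : Cn n →ₗ[ℝ] Cn n := (PkgRIN.TT (Λ x)) ∘ₗ R
  have hS : ∀ v, S v = Λ x (R v).1 + Complex.I • Λ x (R v).2 := fun v => rfl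
  have hdiff : ∀ v, ‖S v - v‖ ≤ (1 / 2) * ‖v‖ := by
    intro v
    have h1 : S v - v = (Λ x - Λ x₀) (R v).1 + Complex.I • (Λ x - Λ x₀) (R v).2 := by
      rw [hS]
      nth_rw 3 [← hid v]
      simp only [ContinuousLinearMap.sub_apply, smul_sub]
      abel
    rw [h1]
    have h2 : ‖(Λ x - Λ x₀) (R v).1‖ ≤ ‖Λ x - Λ x₀‖ * (B * ‖v‖) :=
      ((Λ x - Λ x₀).le_opNorm _).trans
        (mul_le_mul_of_nonneg_left (hRn v).1 (norm_nonneg _))
    have h3 : ‖Complex.I • (Λ x - Λ x₀) (R v).2‖ ≤ ‖Λ x - Λ x₀‖ * (B * ‖v‖) := by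
      rw [norm_smul, Complex.norm_I, one_mul]
      exact ((Λ x - Λ x₀).le_opNorm _).trans
        (mul_le_mul_of_nonneg_left (hRn v).2 (norm_nonneg _))
    have h4 : ‖Λ x - Λ x₀‖ * (B * ‖v‖) ≤ (1 / 4) * ‖v‖ := by
      have h5 : ‖Λ x - Λ x₀‖ * B ≤ 1 / 4 := by
        have h6 : ‖Λ x - Λ x₀‖ * B ≤ 1 / (4 * (B + 1)) * (B + 1) := by
          apply mul_le_mul hx'.le (by linarith) hB0 hpos.le
        have h7 : 1 / (4 * (B + 1)) * (B + 1) = 1 / 4 := by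
          field_simp
        linarith
      calc ‖Λ x - Λ x₀‖ * (B * ‖v‖) = (‖Λ x - Λ x₀‖ * B) * ‖v‖ := by ring
        _ ≤ (1 / 4) * ‖v‖ := mul_le_mul_of_nonneg_right h5 (norm_nonneg _)
    calc _ ≤ _ := norm_add_le _ _
      _ ≤ (1 / 4) * ‖v‖ + (1 / 4) * ‖v‖ := add_le_add (h2.trans h4) (h3.trans h4)
      _ = (1 / 2) * ‖v‖ := by ring
  have hlow : ∀ v, ‖v‖ ≤ 2 * ‖S v‖ := by
    intro v
    have h1 : ‖v‖ ≤ ‖S v‖ + ‖S v - v‖ := by
      have h2 : v = S v - (S v - v) := by abel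
      calc ‖v‖ = ‖S v - (S v - v)‖ := by rw [← h2]
        _ ≤ _ := norm_sub_le _ _
    linarith [hdiff v]
  have hinj : Function.Injective S := by
    rw [injective_iff_map_eq_zero]
    intro v hv
    have h1 := hlow v
    rw [hv, norm_zero, mul_zero] at h1
    exact norm_le_zero_iff.1 h1
  have hsur : Function.Surjective S := LinearMap.injective_iff_surjective.1 hinj
  obtain ⟨v, hv⟩ := hsur w
  have hvn : ‖v‖ ≤ 2 * ‖w‖ := by
    rw [← hv]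
    exact hlow v
  have hw0 := norm_nonneg w
  refine ⟨(R v).1, (R v).2, ?_, ?_, ?_⟩
  · calc ‖(R v).1‖ ≤ B * ‖v‖ := (hRn v).1
      _ ≤ B * (2 * ‖w‖) := mul_le_mul_of_nonneg_left hvn hB0
      _ ≤ (2 * B + 1) * ‖w‖ := by nlinarith
  · calc ‖(R v).2‖ ≤ B * ‖v‖ := (hRn v).2
      _ ≤ B * (2 * ‖w‖) := mul_le_mul_of_nonneg_left hvn hB0
      _ ≤ (2 * B + 1) * ‖w‖ := by nlinarith
  · rw [← hS, hv]

end T2H76.PR
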