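import Pool.Agent.T2H76.PR.Stm

set_option autoImplicit false

open Filter Topology Metric Set

namespace T2H76.PR

theorem pSDA : SDAStm := by
  intro m G x₀ ν R A₀ hR hν hmon hG0 hA hcl a b ha hax hbx hGa hGb
  set s : ℝ := 3 * R / 5 with hs
  have hs0 : 0 < s := by positivity
  have hνν : inner ℝ ν ν = (1 : ℝ) := by rw [real_inner_self_eq_norm_sq, hν]; norm_num
  have hx₀ : x₀ ∈ ball x₀ R := mem_ball_self hR
  have hin : ∀ c : Rm m, ‖c - x₀‖ ≤ R / 5 → ∀ τ : ℝ, 0 ≤ τ → τ ≤ s → c + τ • ν ∈ ball x₀ R := by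
    intro c hc τ h0 h1
    rw [mem_ball, dist_eq_norm]
    have : c + τ • ν - x₀ = (c - x₀) + τ • ν := by abel
    rw [this]
    calc ‖(c - x₀) + τ • ν‖ ≤ ‖c - x₀‖ + ‖τ • ν‖ := norm_add_le _ _
      _ ≤ R / 5 + s := by
        rw [norm_smul, hν, mul_one, Real.norm_eq_abs, abs_of_nonneg h0]
        linarith
      _ < R := by rw [hs]; linarith
  -- vertical segments
  have hvert : ∀ c : Rm m, ‖c - x₀‖ ≤ R / 5 → 0 < G c → ∀ x ∈ segment ℝ c (c + s • ν),
      x ∈ ball x₀ R ∧ 0 < G x := by
    intro c hc hGc x hx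
    rw [segment_eq_image'] at hx
    obtain ⟨θ, hθ, rfl⟩ := hx
    have h1 : c + θ • (c + s • ν - c) = c + (θ * s) • ν := by
      rw [add_sub_cancel_left, smul_smul]
    simp only [h1]
    have h2 : 0 ≤ θ * s := mul_nonneg hθ.1 hs0.le
    have h3 : θ * s ≤ s := by nlinarith [hθ.2]
    refine ⟨hin c hc _ h2 h3, ?_⟩
    rcases h2.eq_or_lt with h | h
    · rw [← h, zero_smul, add_zero]
      exact hGc
    · have hcb : c ∈ ball x₀ R := by
        have := hin c hc 0 le_rfl hs0.le
        simpa using this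
      refine hGc.trans (hmon c _ hcb (hin c hc _ h2 h3) ?_ ?_)
      · rw [norm_smul, hν, mul_one, Real.norm_eq_abs, abs_of_pos h, real_inner_smul_left, hνν]
        linarith
      · intro h0
        have : ‖(θ * s) • ν‖ = 0 := by rw [h0, norm_zero]
        rw [norm_smul, hν, mul_one, Real.norm_eq_abs, abs_of_pos h] at this
        linarith
  have hmid : ∀ x ∈ segment ℝ (a + s • ν) (b + s • ν), x ∈ ball x₀ R ∧ 0 < G x := by
    intro x hx
    rw [segment_eq_image'] at hx
    obtain ⟨θ, hθ, rfl⟩ := hx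
    set v : Rm m := (1 - θ) • (a - x₀) + θ • (b - x₀) with hv
    have h1 : a + s • ν + θ • (b + s • ν - (a + s • ν)) = x₀ + (s • ν + v) := by
      rw [hv, sub_smul, one_smul, smul_sub, smul_sub, smul_sub, smul_add, smul_add]
      abel
    simp only [h1]
    have hvn : ‖v‖ ≤ R / 5 := by
      calc ‖v‖ ≤ ‖(1 - θ) • (a - x₀)‖ + ‖θ • (b - x₀)‖ := norm_add_le _ _
        _ = (1 - θ) * ‖a - x₀‖ + θ * ‖b - x₀‖ := by
          rw [norm_smul, norm_smul, Real.norm_eq_abs, Real.norm_eq_abs,
            abs_of_nonneg (by linarith [hθ.2]), abs_of_nonneg hθ.1]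
        _ ≤ (1 - θ) * (R / 5) + θ * (R / 5) := by
          apply add_le_add
          · exact mul_le_mul_of_nonneg_left hax (by linarith [hθ.2])
          · exact mul_le_mul_of_nonneg_left hbx hθ.1
        _ = R / 5 := by ring
    have hξn : ‖s • ν + v‖ ≤ 4 * R / 5 := by
      calc ‖s • ν + v‖ ≤ ‖s • ν‖ + ‖v‖ := norm_add_le _ _
        _ ≤ s + R / 5 := by
          rw [norm_smul, hν, mul_one, Real.norm_eq_abs, abs_of_pos hs0]
          linarith
        _ = 4 * R / 5 := by rw [hs]; ring
    have hinner : 2 * R / 5 ≤ inner ℝ (s • ν + v) ν := by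
      rw [inner_add_left, real_inner_smul_left, hνν, mul_one]
      have h2 := abs_real_inner_le_norm v ν
      rw [hν, mul_one] at h2
      have h3 := (abs_le.1 h2).1
      rw [hs]
      linarith
    have hball : x₀ + (s • ν + v) ∈ ball x₀ R := by
      rw [mem_ball, dist_eq_norm, add_sub_cancel_left]
      linarith
    refine ⟨hball, ?_⟩
    rw [← hG0]
    refine hmon x₀ _ hx₀ hball (by linarith) ?_
    intro h0
    rw [h0, inner_zero_left] at hinner
    linarith
  set P : Set (Rm m) := (segment ℝ a (a + s • ν) ∪ segment ℝ (a + s • ν) (b + s • ν)) ∪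
    segment ℝ b (b + s • ν) with hP
  have hPpre : IsPreconnected P := by
    refine IsPreconnected.union (b + s • ν) (Or.inr (right_mem_segment _ _ _)) (right_mem_segment _ _ _) ?_
      (convex_segment _ _).isPreconnected
    exact IsPreconnected.union (a + s • ν) (right_mem_segment _ _ _) (left_mem_segment _ _ _)
      (convex_segment _ _).isPreconnected (convex_segment _ _).isPreconnected
  have hPG : ∀ x ∈ P, x ∈ ball x₀ R ∧ 0 < G x := by
    intro x hx
    rcases hx with (hx | hx) | hx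
    · exact hvert a hax hGa x hx
    · exact hmid x hx
    · exact hvert b hbx hGb x hx
  have haP : a ∈ P := Or.inl (Or.inl (left_mem_segment _ _ _))
  have hbP : b ∈ P := Or.inr (left_mem_segment _ _ _)
  have hsub := hPpre.subset_of_closure_inter_subset hA ⟨a, haP, ha⟩ (by
    intro x hx
    obtain ⟨h1, h2⟩ := hPG x hx.2
    rcases hcl x h1 hx.1 with h | h
    · exact h
    · exact absurd h h2.ne')
  exact hsub hbP

end T2H76.PR
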