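import Pool.Agent.T2H76.PR.Stm

set_option autoImplicit false

open Filter Topology Metric Set

namespace T2H76.PR

theorem pSDE (hMON : MONStm) (hSDA : SDAStm) : SDEStm := by
  intro m G W x₀ A₀ hW hx₀ hG hne hG0 hA h1 h2 hcl
  obtain ⟨ν, hν, R, hR, hball, hmon⟩ := hMON m G W x₀ hW hx₀ hG hne
  have hmon' : ∀ x ξ : Rm m, x ∈ ball x₀ R → x + ξ ∈ ball x₀ R → (1 / 2) * ‖ξ‖ ≤ inner ℝ ξ (-ν) →
      ξ ≠ 0 → (fun y => -G y) x < (fun y => -G y) (x + ξ) := by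
    intro x ξ hx hxξ hc hξ
    have h3 := hmon (x + ξ) (-ξ) hxξ (by rwa [add_neg_cancel_right]) (by
      rw [norm_neg, inner_neg_left]
      rw [inner_neg_right] at hc
      exact hc) (neg_ne_zero.2 hξ)
    rw [add_neg_cancel_right] at h3
    simp only
    linarith
  have hP : (∃ a ∈ A₀, ‖a - x₀‖ ≤ R / 5 ∧ 0 < G a) → ∀ b, ‖b - x₀‖ ≤ R / 5 → 0 < G b → b ∈ A₀ := by
    rintro ⟨a, ha, hax, hGa⟩ b hb hGb
    exact hSDA m G x₀ ν R A₀ hR hν hmon hG0 hA (fun x hx hxc => h1 x (hball hx) hxc) a b ha hax hb hGa hGb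
  have hQ : (∃ a ∈ A₀, ‖a - x₀‖ ≤ R / 5 ∧ G a < 0) → ∀ b, ‖b - x₀‖ ≤ R / 5 → G b < 0 → b ∈ A₀ := by
    rintro ⟨a, ha, hax, hGa⟩ b hb hGb
    refine hSDA m (fun y => -G y) x₀ (-ν) R A₀ hR (by rw [norm_neg, hν]) hmon' (by simp [hG0]) hA
      (fun x hx hxc => ?_) a b ha hax hb (by simpa using hGa) (by simpa using hGb)
    rcases h1 x (hball hx) hxc with h | h
    · exact Or.inl h
    · right; simp [h]
  have hnear : ∀ x ξ : Rm m, ‖x - x₀‖ ≤ R / 10 → ‖ξ‖ ≤ R / 10 → ‖x + ξ - x₀‖ ≤ R / 5 := by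
    intro x ξ hx hξ
    have : x + ξ - x₀ = (x - x₀) + ξ := by abel
    rw [this]
    exact (norm_add_le _ _).trans (by linarith)
  have hinb : ∀ x : Rm m, ‖x - x₀‖ ≤ R / 5 → x ∈ ball x₀ R := by
    intro x hx
    rw [mem_ball, dist_eq_norm]
    linarith
  obtain ⟨a, ha, hax⟩ := Metric.mem_closure_iff.1 hcl (R / 5) (by positivity)
  rw [dist_comm, dist_eq_norm] at hax
  by_cases p : ∃ a ∈ A₀, ‖a - x₀‖ ≤ R / 5 ∧ 0 < G a
  · by_cases q : ∃ a ∈ A₀, ‖a - x₀‖ ≤ R / 5 ∧ G a < 0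
    · refine ⟨ν, hν, R / 10, by positivity, fun x hx _ ξ hξ _ => ?_⟩
      rcases lt_trichotomy (G (x + ξ)) 0 with h | h | h
      · exact Or.inl (hQ q _ (hnear x ξ hx hξ) h)
      · exact Or.inr h
      · exact Or.inl (hP p _ (hnear x ξ hx hξ) h)
    · refine ⟨ν, hν, R / 10, by positivity, fun x hx hxA ξ hξ hc => ?_⟩
      by_cases h0 : ξ = 0
      · rw [h0, add_zero]; exact hxA
      have hx5 : ‖x - x₀‖ ≤ R / 5 := by linarith
      have hGx : 0 ≤ G x := by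
        rcases hxA with h | h
        · by_contra hcon
          exact q ⟨x, h, hx5, not_le.1 hcon⟩
        · exact h.ge
      have h3 := hmon x ξ (hinb x hx5) (hinb _ (hnear x ξ hx hξ)) hc h0
      exact Or.inl (hP p _ (hnear x ξ hx hξ) (by linarith))
  · have q : ∃ a ∈ A₀, ‖a - x₀‖ ≤ R / 5 ∧ G a < 0 := by
      refine ⟨a, ha, hax.le, ?_⟩
      rcases lt_trichotomy (G a) 0 with h | h | h
      · exact h
      · exact absurd h (h2 a ha)
      · exact absurd ⟨a, ha, hax.le, h⟩ p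
    refine ⟨-ν, by rw [norm_neg, hν], R / 10, by positivity, fun x hx hxA ξ hξ hc => ?_⟩
    by_cases h0 : ξ = 0
    · rw [h0, add_zero]; exact hxA
    have hx5 : ‖x - x₀‖ ≤ R / 5 := by linarith
    have hGx : G x ≤ 0 := by
      rcases hxA with h | h
      · by_contra hcon
        exact p ⟨x, h, hx5, not_le.1 hcon⟩
      · exact h.le
    have h3 := hmon' x ξ (hinb x hx5) (hinb _ (hnear x ξ hx hξ)) hc h0
    simp only at h3
    exact Or.inl (hQ q _ (hnear x ξ hx hξ) (by linarith))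

end T2H76.PR
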