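import Pool.Agent.T2H76.PR.Stm

/-!
# Package SL: slit disc
-/

set_option autoImplicit false

open Filter Topology Metric Set

namespace T2H76.PR

/-- the harmonic function on the slit plane -/
noncomputable def PkgSL.S (q : ℂ) : ℝ := Real.sqrt 2 * Real.sqrt (‖q‖ + q.re) - q.re

theorem PkgSL.re_eq (q : ℂ) (hq : q ≠ 0) :
    (2 * Complex.exp (Complex.log q / 2) - q).re = PkgSL.S q := by
  set w : ℂ := Complex.exp (Complex.log q / 2) with hw
  have hw2 : w ^ 2 = q := by
    rw [hw, ← Complex.exp_nat_mul]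
    have h1 : ((2 : ℕ) : ℂ) * (Complex.log q / 2) = Complex.log q := by
      push_cast
      ring
    rw [h1, Complex.exp_log hq]
  have hre : w.re ^ 2 - w.im ^ 2 = q.re := by
    rw [← hw2, sq w, Complex.mul_re]
    ring
  have hnorm : w.re ^ 2 + w.im ^ 2 = ‖q‖ := by
    rw [← hw2, norm_pow, ← Complex.normSq_eq_norm_sq, Complex.normSq_apply]
    ring
  have hpos : 0 ≤ w.re := by
    rw [hw, Complex.exp_re]
    apply mul_nonneg (Real.exp_pos _).le
    have h1 : (Complex.log q / 2).im = Complex.arg q / 2 := by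
      rw [show (2 : ℂ) = ((2 : ℝ) : ℂ) by norm_num, Complex.div_ofReal_im, Complex.log_im]
    rw [h1]
    apply Real.cos_nonneg_of_mem_Icc
    constructor
    · linarith [Complex.neg_pi_lt_arg q]
    · linarith [Complex.arg_le_pi q]
  have h2 : Real.sqrt 2 * Real.sqrt (‖q‖ + q.re) = 2 * w.re := by
    rw [← Real.sqrt_mul (by norm_num), ← hnorm, ← hre]
    have h3 : 2 * (w.re ^ 2 + w.im ^ 2 + (w.re ^ 2 - w.im ^ 2)) = (2 * w.re) ^ 2 := by ring
    rw [h3, Real.sqrt_sq (by linarith)]
  unfold PkgSL.S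
  rw [h2, Complex.sub_re]
  congr 1
  simp

theorem PkgSL.S_continuous : Continuous PkgSL.S := by
  unfold PkgSL.S
  have h1 : Continuous (fun q : ℂ => Real.sqrt (‖q‖ + q.re)) :=
    Real.continuous_sqrt.comp (continuous_norm.add Complex.continuous_re)
  exact (continuous_const.mul h1).sub Complex.continuous_re

theorem pSL (hMP : MPStm) (hMVA : MVAStm) : SLStm := by
  intro n u hu a b ρ r A M hρ hr hρr hAM hA hM
  have hrc : (r : ℂ) ≠ 0 := by exact_mod_cast hr.ne'
  rcases hρ.eq_or_lt with h0 | hρ0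
  · -- `ρ = 0`
    have h1 := hA 0 (by linarith) (by linarith)
    rw [← h0, zero_div, Real.sqrt_zero, mul_zero, mul_zero, add_zero]
    simpa using h1
  rcases hρr.eq_or_lt with h1 | hρr'
  · -- `ρ = r`
    have h2 := hM 0 (by
      rw [zero_sub, norm_neg, Complex.norm_real, Real.norm_eq_abs, abs_of_nonneg hρ]
      exact hρr)
    rw [zero_smul, add_zero] at h2
    refine h2.trans (EReal.coe_le_coe_iff.2 ?_)
    rw [h1, div_self hr.ne', Real.sqrt_one]
    linarith
  -- the coordinate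
  set q : ℂ → ℂ := fun ζ => ((ρ : ℂ) - ζ) / (r : ℂ) with hq
  have hqc : Continuous q := (continuous_const.sub continuous_id).div_const _
  have hqd : Differentiable ℂ q := by
    intro z
    exact ((differentiableAt_const _).sub differentiableAt_id).div_const _
  have hqn : ∀ ζ, ‖ζ - (ρ : ℂ)‖ = r * ‖q ζ‖ := by
    intro ζ
    rw [hq]
    simp only
    rw [norm_div, Complex.norm_real, Real.norm_eq_abs, abs_of_pos hr, norm_sub_rev]
    field_simp
  set Ω : Set ℂ := {ζ | ‖q ζ‖ < 1} ∩ q ⁻¹' Complex.slitPlane with hΩ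
  have hΩo : IsOpen Ω := (isOpen_lt hqc.norm continuous_const).inter
    (Complex.isOpen_slitPlane.preimage hqc)
  have hΩc : ∀ ζ ∈ closure Ω, ‖q ζ‖ ≤ 1 := by
    intro ζ hζ
    have h1 : closure Ω ⊆ {ζ | ‖q ζ‖ ≤ 1} := by
      apply closure_minimal _ (isClosed_le hqc.norm continuous_const)
      intro z hz
      exact (le_of_lt hz.1 : ‖q z‖ ≤ 1)
    exact h1 hζ
  have hΩb : Bornology.IsBounded Ω := by
    apply (Metric.isBounded_closedBall (x := (ρ : ℂ)) (r := r)).subset
    intro ζ hζ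
    rw [Metric.mem_closedBall, dist_eq_norm, hqn]
    have h1 : ‖q ζ‖ < 1 := hζ.1
    nlinarith
  set h : ℂ → ℝ := fun ζ => A + (M - A) * PkgSL.S (q ζ) with hh
  have hhc : Continuous h := continuous_const.add
    (continuous_const.mul (PkgSL.S_continuous.comp hqc))
  -- mean value property
  have hmv : ∀ ζ ∈ Ω, ∃ ρ' > 0, ∀ s : ℝ, 0 < s → s < ρ' →
      (2 * Real.pi)⁻¹ * ∫ t in (0:ℝ)..(2 * Real.pi),
        h (ζ + (s : ℂ) * Complex.exp ((t : ℂ) * Complex.I)) ≤ h ζ := by
    intro ζ hζ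
    obtain ⟨ρ', hρ', hball⟩ := Metric.isOpen_iff.1 hΩo ζ hζ
    refine ⟨ρ', hρ', fun s hs hsρ => ?_⟩
    let f : ℂ → ℂ := fun z =>
      (A : ℂ) + ((M - A : ℝ) : ℂ) * (2 * Complex.exp (Complex.log (q z) / 2) - q z)
    have hf : DifferentiableOn ℂ f (ball ζ ρ') := by
      intro z hz
      have hz' := hball hz
      have h1 : DifferentiableAt ℂ (fun z => Complex.log (q z)) z :=
        (hqd z).clog hz'.2
      have h2 : DifferentiableAt ℂ f z := by
        refine (differentiableAt_const _).add ((differentiableAt_const _).mul ?_)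
        exact ((differentiableAt_const _).mul (h1.div_const _).cexp).sub (hqd z)
      exact h2.differentiableWithinAt
    have hre : ∀ z ∈ ball ζ ρ', (f z).re = h z := by
      intro z hz
      have hz' := hball hz
      have h1 : q z ≠ 0 := Complex.slitPlane_ne_zero hz'.2
      have h2 := PkgSL.re_eq (q z) h1
      change ((A : ℂ) + ((M - A : ℝ) : ℂ) *
        (2 * Complex.exp (Complex.log (q z) / 2) - q z)).re = A + (M - A) * PkgSL.S (q z)
      rw [Complex.add_re, Complex.ofReal_re, Complex.re_ofReal_mul, h2]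
    have h3 := hMVA f ζ ρ' hf s hs hsρ
    rw [hre ζ (mem_ball_self hρ')] at h3
    have h4 : ∀ t : ℝ, (f (ζ + (s : ℂ) * Complex.exp ((t : ℂ) * Complex.I))).re =
        h (ζ + (s : ℂ) * Complex.exp ((t : ℂ) * Complex.I)) := by
      intro t
      apply hre
      rw [Metric.mem_ball, dist_eq_norm, add_sub_cancel_left, norm_mul, Complex.norm_real,
        Real.norm_eq_abs, abs_of_pos hs, Complex.norm_exp_ofReal_mul_I, mul_one]
      exact hsρ
    simp_rw [h4] at h3
    exact h3.le
  -- boundary values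
  have hbd : ∀ ζ ∈ frontier Ω, u (a + ζ • b) ≤ ((h ζ : ℝ) : EReal) := by
    intro ζ hζ
    have hζc : ‖q ζ‖ ≤ 1 := hΩc ζ (frontier_subset_closure hζ)
    have hζn : ζ ∉ Ω := by
      rw [hΩo.frontier_eq] at hζ
      exact hζ.2
    by_cases hsl : q ζ ∈ Complex.slitPlane
    · -- `‖q‖ = 1`
      have h1 : ‖q ζ‖ = 1 := by
        apply le_antisymm hζc
        by_contra hlt
        exact hζn ⟨not_le.1 hlt, hsl⟩
      refine (hM ζ (by rw [hqn, h1, mul_one])).trans (EReal.coe_le_coe_iff.2 ?_)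
      have habs := Complex.abs_re_le_norm (q ζ)
      rw [h1, abs_le] at habs
      have h2 : 1 ≤ PkgSL.S (q ζ) := by
        unfold PkgSL.S
        rw [h1, ← Real.sqrt_mul (by norm_num)]
        have h3 : 1 + (q ζ).re ≤ Real.sqrt (2 * (1 + (q ζ).re)) := by
          apply Real.le_sqrt_of_sq_le
          nlinarith [habs.1, habs.2]
        linarith
      change M ≤ A + (M - A) * PkgSL.S (q ζ)
      nlinarith
    · -- on the slit
      have h1 : (q ζ).re ≤ 0 ∧ (q ζ).im = 0 := by
        rw [Complex.mem_slitPlane_iff] at hsl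
        push Not at hsl
        exact hsl
      have hqre : q ζ = (((q ζ).re : ℝ) : ℂ) := by
        apply Complex.ext
        · rw [Complex.ofReal_re]
        · rw [Complex.ofReal_im, h1.2]
      have hn : ‖q ζ‖ = -(q ζ).re := by
        rw [hqre, Complex.norm_real, Real.norm_eq_abs, abs_of_nonpos h1.1, Complex.ofReal_re]
      have hζe : ζ = ((ρ - r * (q ζ).re : ℝ) : ℂ) := by
        have h2 : (r : ℂ) * q ζ = (ρ : ℂ) - ζ := by
          rw [hq]
          field_simp
        have h3 : ζ = (ρ : ℂ) - (r : ℂ) * q ζ := by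
          rw [h2]
          ring
        nth_rw 1 [h3]
        rw [hqre]
        push_cast
        simp
      have h5 := hA (ρ - r * (q ζ).re) (by nlinarith [h1.1]) (by nlinarith [hn, hζc])
      rw [← hζe] at h5
      refine h5.trans (EReal.coe_le_coe_iff.2 ?_)
      have h6 : 0 ≤ PkgSL.S (q ζ) := by
        unfold PkgSL.S
        have h7 : 0 ≤ Real.sqrt 2 * Real.sqrt (‖q ζ‖ + (q ζ).re) := by positivity
        linarith [h1.1]
      change A ≤ A + (M - A) * PkgSL.S (q ζ)
      nlinarith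
  have hq0 : q 0 = ((ρ / r : ℝ) : ℂ) := by
    rw [hq]
    simp
  have hy0 : 0 < ρ / r := div_pos hρ0 hr
  have hy1 : ρ / r < 1 := (div_lt_one hr).2 hρr'
  have h0Ω : (0 : ℂ) ∈ Ω := by
    constructor
    · change ‖q 0‖ < 1
      rw [hq0, Complex.norm_real, Real.norm_eq_abs, abs_of_pos hy0]
      exact hy1
    · change q 0 ∈ Complex.slitPlane
      rw [hq0, Complex.mem_slitPlane_iff]
      left
      rw [Complex.ofReal_re]
      exact hy0
  have hfin := hMP n u hu a b Ω h hΩo hΩb hhc.continuousOn hmv hbd 0 h0Ω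
  rw [zero_smul, add_zero] at hfin
  refine hfin.trans (EReal.coe_le_coe_iff.2 ?_)
  change A + (M - A) * PkgSL.S (q 0) ≤ _
  have h8 : PkgSL.S (q 0) ≤ 2 * Real.sqrt (ρ / r) := by
    unfold PkgSL.S
    rw [hq0, Complex.norm_real, Real.norm_eq_abs, abs_of_pos hy0, Complex.ofReal_re,
      ← Real.sqrt_mul (by norm_num)]
    have h9 : 2 * (ρ / r + ρ / r) = 2 ^ 2 * (ρ / r) := by ring
    rw [h9, Real.sqrt_mul (by norm_num), Real.sqrt_sq (by norm_num)]
    linarith
  nlinarith [mul_le_mul_of_nonneg_left h8 (sub_nonneg.2 hAM)]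

end T2H76.PR
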