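import Pool.Agent.T2H76.PR.Stm

open Filter Topology Metric Set

namespace T2H76.PR

theorem trunc_le_of_le {N g : ℝ} {x : EReal} (hx : x ≤ (g : EReal)) (hg : -N ≤ g) :
    trunc N x ≤ g := by
  unfold trunc
  have h1 : max x ((-N : ℝ) : EReal) ≤ (g : EReal) := max_le hx (by exact_mod_cast hg)
  have h2 : max x ((-N : ℝ) : EReal) ≠ ⊥ := by
    intro h
    have := le_max_right x ((-N : ℝ) : EReal)
    rw [h] at this
    exact absurd (le_bot_iff.mp this) (EReal.coe_ne_bot _)
  have h3 : max x ((-N : ℝ) : EReal) ≠ ⊤ := ne_top_of_le_ne_top (EReal.coe_ne_top _) h1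
  have h4 := EReal.toReal_le_toReal h1 h2 (EReal.coe_ne_top _)
  simpa using h4

theorem neg_le_trunc {N : ℝ} {x : EReal} (hx : x < ⊤) : -N ≤ trunc N x := by
  unfold trunc
  have h3 : max x ((-N : ℝ) : EReal) ≠ ⊤ := by
    intro h
    rcases max_choice x ((-N : ℝ) : EReal) with h' | h'
    · rw [h'] at h; exact hx.ne h
    · rw [h'] at h; exact EReal.coe_ne_top _ h
  have h4 := EReal.toReal_le_toReal (le_max_right x ((-N : ℝ) : EReal)) (EReal.coe_ne_bot _) h3
  simpa using h4

theorem measurable_trunc (N : ℝ) : Measurable (trunc N) := by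
  unfold trunc
  exact measurable_ereal_toReal.comp (measurable_id.max measurable_const)

theorem pSM : SMStm := by
  intro n u hu a b g hg hug
  have h2pi : (0:ℝ) ≤ 2 * Real.pi := by positivity
  -- lower bound of g
  obtain ⟨t0, -, ht0⟩ := (isCompact_Icc (a := (0:ℝ)) (b := 2 * Real.pi)).exists_isMinOn
    (nonempty_Icc.mpr h2pi) hg.continuousOn
  set N : ℝ := -(g t0) with hN
  have hNg : ∀ t ∈ Icc (0:ℝ) (2 * Real.pi), -N ≤ g t := by
    intro t ht
    have := ht0 ht
    simpa [hN] using this
  refine (hu.mean a b N).trans ?_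
  have hle : (∫ t in (0:ℝ)..(2 * Real.pi),
      trunc N (u (a + Complex.exp ((t : ℂ) * Complex.I) • b))) ≤
      ∫ t in (0:ℝ)..(2 * Real.pi), g t := by
    have hcont : Continuous (fun t : ℝ => a + Complex.exp ((t : ℂ) * Complex.I) • b) := by
      fun_prop
    have hmeas : Measurable (fun t : ℝ =>
        trunc N (u (a + Complex.exp ((t : ℂ) * Complex.I) • b))) := by
      refine (measurable_trunc N).comp ?_
      have husc : UpperSemicontinuous (fun t : ℝ =>
        u (a + Complex.exp ((t : ℂ) * Complex.I) • b)) := hu.usc.comp hcont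
      exact husc.measurable
    obtain ⟨B, hB⟩ : ∃ B : ℝ, ∀ t ∈ Icc (0:ℝ) (2 * Real.pi), g t ≤ B := by
      obtain ⟨t1, -, ht1⟩ := (isCompact_Icc (a := (0:ℝ)) (b := 2 * Real.pi)).exists_isMaxOn
        (nonempty_Icc.mpr h2pi) hg.continuousOn
      exact ⟨g t1, fun t ht => ht1 ht⟩
    refine intervalIntegral.integral_mono_on h2pi ?_ (hg.intervalIntegrable _ _) ?_
    · rw [intervalIntegrable_iff_integrableOn_Icc_of_le h2pi]
      refine MeasureTheory.Integrable.mono' (g := fun _ => |N| + |B|)
        (MeasureTheory.integrable_const _) hmeas.aestronglyMeasurable ?_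
      refine (MeasureTheory.ae_restrict_iff' measurableSet_Icc).mpr
        (Eventually.of_forall fun t ht => ?_)
      have h1 := trunc_le_of_le (hug t) (hNg t ht)
      have h2 : -N ≤ trunc N (u (a + Complex.exp ((t : ℂ) * Complex.I) • b)) :=
        neg_le_trunc (hu.lt_top _)
      rw [Real.norm_eq_abs, abs_le]
      constructor
      · have := le_abs_self N
        have := abs_nonneg B
        linarith
      · have := hB t ht
        have := le_abs_self B
        have := abs_nonneg N
        linarith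
    · intro t ht
      exact trunc_le_of_le (hug t) (hNg t ht)
  have h2 : (2 * Real.pi)⁻¹ * (∫ t in (0:ℝ)..(2 * Real.pi),
      trunc N (u (a + Complex.exp ((t : ℂ) * Complex.I) • b))) ≤
      (2 * Real.pi)⁻¹ * ∫ t in (0:ℝ)..(2 * Real.pi), g t := by
    gcongr
  exact_mod_cast h2

end T2H76.PR
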