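import Pool.Agent.T2H76.PR.Stm

set_option autoImplicit false

open Filter Topology Metric Set

namespace T2H76.PR

theorem pSTA (hHD : HDStm) : STAStm := by
  intro n m u E p K r₀ τ A M L ν hu hK hτ hAM hν hL hcone hA hM s t hs0 hsν hsr hKs hKs2 hts
  have hsn : 0 < ‖s‖ := norm_pos_iff.2 hs0
  have hK0 : 0 < K := by linarith
  by_cases ht0 : t = 0
  · subst ht0
    rw [map_zero, smul_zero, add_zero, norm_zero, mul_zero, zero_div, mul_zero, add_zero]
    apply hA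
    refine (hcone s (by linarith) (by linarith)).trans ?_
    linarith [mul_nonneg hK0.le (sq_nonneg ‖s‖)]
  have htn : 0 < ‖t‖ := norm_pos_iff.2 ht0
  set T := ‖t‖ with hT
  set b : Cn n := L ((1 / T) • t) with hb
  set a : Cn n := p + L s with ha
  have hunit : ‖(1 / T) • t‖ = 1 := by
    rw [norm_smul, Real.norm_eq_abs, abs_of_pos (by positivity), ← hT]
    field_simp
  have hbn : ‖b‖ ≤ K := by
    calc ‖b‖ ≤ ‖L‖ * ‖(1 / T) • t‖ := L.le_opNorm _
      _ = ‖L‖ := by rw [hunit, mul_one]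
      _ ≤ K := hL
  have hLs : ‖L s‖ ≤ K * ‖s‖ := (L.le_opNorm _).trans (mul_le_mul_of_nonneg_right hL (norm_nonneg _))
  have h1 : ∀ x : ℝ, |x| ≤ ‖s‖ / 8 → u (a + (x : ℂ) • b) ≤ ((A : ℝ) : EReal) := by
    intro x hx
    have e1 : a + (x : ℂ) • b = p + L (s + x • ((1 / T) • t)) := by
      rw [ha, hb, map_add, map_smul L x, Complex.coe_smul, add_assoc]
    have hxn : ‖x • ((1 / T) • t)‖ ≤ ‖s‖ / 8 := by
      rw [norm_smul, hunit, mul_one, Real.norm_eq_abs]
      exact hx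
    set e := x • ((1 / T) • t) with he
    have hn1 : ‖s + e‖ ≤ 9 / 8 * ‖s‖ := (norm_add_le _ _).trans (by linarith)
    have hi : 5 / 8 * ‖s‖ ≤ inner ℝ (s + e) ν := by
      rw [inner_add_left]
      have h2 := abs_real_inner_le_norm e ν
      rw [hν, mul_one] at h2
      have h3 := (abs_le.1 h2).1
      linarith
    rw [e1]
    apply hA
    refine (hcone (s + e) (by linarith) (by linarith)).trans ?_
    have h4 : ‖s + e‖ ^ 2 ≤ (9 / 8 * ‖s‖) ^ 2 := pow_le_pow_left₀ (norm_nonneg _) hn1 2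
    have h5 : K * ‖s + e‖ ^ 2 ≤ K * (9 / 8 * ‖s‖) ^ 2 := mul_le_mul_of_nonneg_left h4 hK0.le
    have h6 : K * (9 / 8 * ‖s‖) ^ 2 = 81 / 64 * (K * ‖s‖ ^ 2) := by ring
    have h7 : 0 ≤ K * ‖s‖ ^ 2 := by positivity
    linarith
  have h2 : ∀ ζ : ℂ, ‖ζ‖ ≤ ‖s‖ / 8 → u (a + ζ • b) ≤ ((M : ℝ) : EReal) := by
    intro ζ hζ
    apply hM
    have e1 : a + ζ • b - p = L s + ζ • b := by rw [ha]; abel
    rw [e1]
    calc ‖L s + ζ • b‖ ≤ ‖L s‖ + ‖ζ • b‖ := norm_add_le _ _
      _ ≤ K * ‖s‖ + ‖s‖ / 8 * K := by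
        rw [norm_smul]
        exact add_le_add hLs (mul_le_mul hζ hbn (norm_nonneg _) (by positivity))
      _ = 9 / 16 * (2 * K * ‖s‖) := by ring
      _ ≤ 1 := by linarith
  have h3 := hHD n u hu a b (‖s‖ / 8) A M (by positivity) hAM h1 h2 T htn.le (by linarith)
  have e2 : a + ((T : ℂ) * Complex.I) • b = p + L s + Complex.I • L t := by
    have e3 : (T : ℂ) • b = L t := by
      rw [hb, Complex.coe_smul, ← map_smul, smul_smul]
      congr 1
      have : T * (1 / T) = 1 := by field_simp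
      rw [this, one_smul]
    rw [ha, mul_comm, mul_smul, e3]
  have e4 : 2 * T / (‖s‖ / 8) = 16 * T / ‖s‖ := by
    field_simp
    ring
  rw [e2, e4] at h3
  exact h3

end T2H76.PR
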