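import Pool.Agent.T2H76.PR.Stm

/-!
# Package TAY
-/

set_option autoImplicit false

open Filter Topology Metric Set

namespace T2H76.PR

theorem pTAY : TAYStm := by
  intro n m ψ W x₀ hW hψ hx₀
  have hd : ContDiffOn ℝ 1 (fderiv ℝ ψ) W :=
    hψ.fderiv_of_isOpen hW (by norm_num)
  have hda : ContDiffAt ℝ 1 (fderiv ℝ ψ) x₀ := hd.contDiffAt (hW.mem_nhds hx₀)
  obtain ⟨KL, t, ht, hlip⟩ := hda.exists_lipschitzOnWith
  obtain ⟨r, hr, hball⟩ := Metric.mem_nhds_iff.1 (Filter.inter_mem ht (hW.mem_nhds hx₀))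
  set ρ : ℝ := r / 3 with hρ
  have hρ0 : 0 < ρ := by positivity
  have hKL : (0 : ℝ) ≤ KL := KL.2
  refine ⟨1 + KL + ‖fderiv ℝ ψ x₀‖ + KL * ρ, ?_, ρ, hρ0, ?_⟩
  · have := norm_nonneg (fderiv ℝ ψ x₀)
    nlinarith [mul_nonneg hKL hρ0.le]
  intro x hx
  have hin : ∀ y : Rm m, ‖y - x₀‖ ≤ 2 * ρ → y ∈ t ∧ y ∈ W := by
    intro y hy
    apply hball
    rw [Metric.mem_ball, dist_eq_norm]
    have : 2 * ρ < r := by
      rw [hρ]
      linarith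
    linarith
  have hxm := hin x (by linarith)
  have hx0m := hin x₀ (by rw [sub_self, norm_zero]; linarith)
  have hnorm0 := norm_nonneg (fderiv ℝ ψ x₀)
  constructor
  · have h1 : ‖fderiv ℝ ψ x - fderiv ℝ ψ x₀‖ ≤ KL * ‖x - x₀‖ :=
      hlip.norm_sub_le hxm.1 hx0m.1
    have h2 : ‖fderiv ℝ ψ x‖ ≤ ‖fderiv ℝ ψ x₀‖ + ‖fderiv ℝ ψ x - fderiv ℝ ψ x₀‖ := by
      have h3 : fderiv ℝ ψ x = fderiv ℝ ψ x₀ + (fderiv ℝ ψ x - fderiv ℝ ψ x₀) := by abel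
      calc ‖fderiv ℝ ψ x‖ = ‖fderiv ℝ ψ x₀ + (fderiv ℝ ψ x - fderiv ℝ ψ x₀)‖ := by rw [← h3]
        _ ≤ _ := norm_add_le _ _
    have h4 : (KL : ℝ) * ‖x - x₀‖ ≤ KL * ρ := mul_le_mul_of_nonneg_left hx hKL
    linarith
  · intro ξ hξ
    have hxξ : ‖x + ξ - x₀‖ ≤ 2 * ρ := by
      have h1 : x + ξ - x₀ = (x - x₀) + ξ := by abel
      rw [h1]
      linarith [norm_add_le (x - x₀) ξ]
    refine ⟨(hin _ hxξ).2, ?_⟩
    have hsub : ∀ y ∈ closedBall x ‖ξ‖, y ∈ t ∧ y ∈ W := by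
      intro y hy
      apply hin
      rw [Metric.mem_closedBall, dist_eq_norm] at hy
      have h1 : y - x₀ = (y - x) + (x - x₀) := by abel
      rw [h1]
      linarith [norm_add_le (y - x) (x - x₀)]
    have hmv := (convex_closedBall x ‖ξ‖).norm_image_sub_le_of_norm_hasFDerivWithin_le'
      (f := ψ) (f' := fun y => fderiv ℝ ψ y) (φ := fderiv ℝ ψ x) (C := KL * ‖ξ‖)
      (x := x) (y := x + ξ) ?_ ?_ (mem_closedBall_self (norm_nonneg _)) ?_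
    · have h1 : x + ξ - x = ξ := by abel
      rw [h1] at hmv
      have h2 : (KL : ℝ) * ‖ξ‖ * ‖ξ‖ ≤ (1 + KL + ‖fderiv ℝ ψ x₀‖ + KL * ρ) * ‖ξ‖ ^ 2 := by
        have h3 := sq_nonneg ‖ξ‖
        have h4 : 0 ≤ (1 + ‖fderiv ℝ ψ x₀‖ + KL * ρ) * ‖ξ‖ ^ 2 := by positivity
        nlinarith
      exact hmv.trans h2
    · intro y hy
      have h1 : DifferentiableAt ℝ ψ y :=
        (hψ.contDiffAt (hW.mem_nhds (hsub y hy).2)).differentiableAt (by norm_num)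
      exact h1.hasFDerivAt.hasFDerivWithinAt
    · intro y hy
      have h1 : ‖fderiv ℝ ψ y - fderiv ℝ ψ x‖ ≤ KL * ‖y - x‖ :=
        hlip.norm_sub_le (hsub y hy).1 hxm.1
      rw [Metric.mem_closedBall, dist_eq_norm] at hy
      exact h1.trans (mul_le_mul_of_nonneg_left hy hKL)
    · rw [Metric.mem_closedBall, dist_eq_norm]
      have h1 : x + ξ - x = ξ := by abel
      rw [h1]

end T2H76.PR
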