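import Pool.Agent.T2H76.PR.Stm

set_option autoImplicit false

open Filter Topology Metric Set

namespace T2H76.PR

theorem pUBD (hITE : ITEStm) (hBWA : BWAStm) : UBDStm := by
  intro n E K r₀ hE hne hK hr₀ hcone
  have hK0 : 0 < K := by linarith
  set κ : ℝ := min (1 / (600 * K)) (min 1 r₀) with hκ
  have hκ0 : 0 < κ := lt_min (by positivity) (lt_min one_pos hr₀)
  have hκ1 : κ ≤ 1 := (min_le_right _ _).trans (min_le_left _ _)
  have hκr : κ ≤ r₀ := (min_le_right _ _).trans (min_le_right _ _)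
  have hκK : κ * (600 * K) ≤ 1 := by
    have : κ ≤ 1 / (600 * K) := min_le_left _ _
    rwa [le_div_iff₀ (by positivity)] at this
  have h9 : 9 * K * κ ^ 2 ≤ 1 := by
    have h1 : K * κ ^ 2 ≤ K * κ := by
      apply mul_le_mul_of_nonneg_left _ hK0.le
      nlinarith
    nlinarith
  have h4 : κ ^ 4 ≤ r₀ := by
    have : κ ^ 4 ≤ κ ^ 1 := pow_le_pow_of_le_one hκ0.le hκ1 (by norm_num)
    rw [pow_one] at this
    linarith
  have hκ8 : κ ^ 8 ≤ 1 := pow_le_one₀ hκ0.le hκ1
  have hκ80 : 0 < κ ^ 8 := by positivity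
  obtain ⟨p₀, hp₀⟩ := hne
  obtain ⟨R0, hR0⟩ := hE.isBounded.subset_closedBall p₀
  set R : ℝ := max 1 (R0 + 1) with hR
  have hR1 : 1 ≤ R := le_max_left _ _
  set S : Set (Cn n) := {z | infDist z E ≤ 1} with hS
  have hSball : S ⊆ closedBall p₀ R := by
    intro z hz
    obtain ⟨y, hy, hzy⟩ := hE.exists_infDist_eq_dist ⟨p₀, hp₀⟩ z
    have h1 : dist y p₀ ≤ R0 := hR0 hy
    have h2 : dist z y ≤ 1 := by rw [← hzy]; exact hz
    rw [mem_closedBall]
    calc dist z p₀ ≤ dist z y + dist y p₀ := dist_triangle _ _ _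
      _ ≤ 1 + R0 := add_le_add h2 h1
      _ = R0 + 1 := add_comm _ _
      _ ≤ R := le_max_right _ _
  have hSc : IsCompact S := by
    refine Metric.isCompact_of_isClosed_isBounded ?_ (isBounded_closedBall.subset hSball)
    exact isClosed_le (continuous_infDist_pt E) continuous_const
  have hSne : S.Nonempty := ⟨p₀, by
    show infDist p₀ E ≤ 1
    rw [infDist_zero_of_mem hp₀]
    exact zero_le_one⟩
  have hRκ : 1 ≤ R / κ ^ 8 := by
    rw [le_div_iff₀ hκ80]
    linarith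
  have hlog : 0 ≤ Real.log (R / κ ^ 8) := Real.log_nonneg hRκ
  refine ⟨2 * Real.log (R / κ ^ 8), by linarith, fun u hu huE z hz => ?_⟩
  obtain ⟨zm, hzm, hmax⟩ := (hu.1.usc.upperSemicontinuousOn S).exists_isMaxOn hSne hSc
  have hle : u z ≤ u zm := hmax hz
  by_cases hpos : u zm ≤ 0
  · refine hle.trans (hpos.trans ?_)
    exact_mod_cast (by linarith : (0 : ℝ) ≤ 2 * Real.log (R / κ ^ 8))
  · have hpos' : 0 < u zm := not_le.1 hpos
    have htop : u zm ≠ ⊤ := (hu.1.lt_top zm).ne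
    have hbot : u zm ≠ ⊥ := (lt_trans EReal.bot_lt_zero hpos').ne'
    set Mu : ℝ := (u zm).toReal with hMu
    have hMuE : u zm = ((Mu : ℝ) : EReal) := (EReal.coe_toReal htop hbot).symm
    have hMu0 : 0 < Mu := by
      rw [hMuE] at hpos'
      exact_mod_cast hpos'
    have h1 := hITE n u E K r₀ κ Mu hu.1 hE ⟨p₀, hp₀⟩ hK hκ0 h9 h4 hMu0.le hcone huE (by
      intro y hy
      rw [← hMuE]
      exact hmax hy)
    have h2 : ∀ y, ‖y - p₀‖ ≤ κ ^ 8 → u y ≤ ((Mu / 2 : ℝ) : EReal) := by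
      intro y hy
      have h3 : infDist y E ≤ κ ^ 8 := by
        refine (infDist_le_dist_of_mem hp₀).trans ?_
        rw [dist_eq_norm]
        exact hy
      refine (h1 y h3).trans ?_
      have h4 : 300 * K * Mu * κ ≤ Mu / 2 := by
        have h5 : Mu * (κ * (600 * K)) ≤ Mu * 1 := mul_le_mul_of_nonneg_left hκK hMu0.le
        linarith
      exact_mod_cast h4
    have h3 := hBWA n u hu p₀ (κ ^ 8) R (Mu / 2) hκ80 (by linarith) h2 zm (by
      have := hSball hzm
      rw [mem_closedBall, dist_eq_norm] at this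
      exact this)
    rw [hMuE] at h3
    have h5 : Mu ≤ Mu / 2 + Real.log (R / κ ^ 8) := by exact_mod_cast h3
    refine hle.trans ?_
    rw [hMuE]
    exact_mod_cast (by linarith : Mu ≤ 2 * Real.log (R / κ ^ 8))

end T2H76.PR
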