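import Pool.Agent.T2H76.PR.Stm

/-!
Package VCO of project PR.
-/

open Filter Topology Metric Set

namespace T2H76.PR

namespace PkgVCO

theorem lel_zero {n : ℕ} : Lel (fun _ : Cn n => (0 : EReal)) := by
  refine ⟨⟨fun z => ?_, upperSemicontinuous_const, fun a b N => ?_⟩, 0, fun z => ?_⟩
  · exact EReal.coe_lt_top 0
  · have h : (0 : ℝ) ≤ (2 * Real.pi)⁻¹ * ∫ t in (0:ℝ)..(2 * Real.pi), trunc N (0 : EReal) := by
      refine mul_nonneg (by positivity) ?_
      refine intervalIntegral.integral_nonneg (by positivity) fun t _ => ?_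
      unfold trunc
      exact EReal.toReal_nonneg (le_max_left _ _)
    exact_mod_cast h
  · have : (0 : ℝ) ≤ Real.log (1 + ‖z‖) + 0 := by
      have := Real.log_nonneg (show (1 : ℝ) ≤ 1 + ‖z‖ by linarith [norm_nonneg z])
      linarith
    show (0 : EReal) ≤ _
    exact_mod_cast this

theorem trunc_sub (N ε : ℝ) (x : EReal) (hx : x < ⊤) :
    trunc N (x + ((-ε : ℝ) : EReal)) = trunc (N - ε) x - ε := by
  unfold trunc
  induction x using EReal.rec with
  | bot =>
    rw [EReal.bot_add]
    rw [max_eq_right (bot_le), max_eq_right (bot_le), EReal.toReal_coe, EReal.toReal_coe]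
    ring
  | coe y =>
    rw [← EReal.coe_add, ← EReal.coe_strictMono.monotone.map_max,
      ← EReal.coe_strictMono.monotone.map_max, EReal.toReal_coe, EReal.toReal_coe]
    rcases le_total (y + -ε) (-N) with h | h
    · rw [max_eq_right h, max_eq_right (by linarith)]
      ring
    · rw [max_eq_left h, max_eq_left (by linarith)]
      ring
  | top => exact absurd hx (lt_irrefl _)

theorem add_lt_iff (x y : EReal) (c : ℝ) : x + ((-c : ℝ) : EReal) < y ↔ x < y + (c : EReal) := by
  induction x using EReal.rec with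
  | bot =>
    induction y using EReal.rec with
    | bot => simp
    | coe y => simp [← EReal.coe_add]
    | top => simp
  | coe x =>
    induction y using EReal.rec with
    | bot => simp [← EReal.coe_add]
    | coe y =>
      rw [← EReal.coe_add, ← EReal.coe_add, EReal.coe_lt_coe_iff, EReal.coe_lt_coe_iff]
      constructor <;> intro h <;> linarith
    | top =>
      rw [← EReal.coe_add]
      simp only [EReal.coe_lt_top, EReal.top_add_coe]
  | top =>
    induction y using EReal.rec with
    | bot => simp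
    | coe y => simp [← EReal.coe_add]
    | top => simp

theorem lel_shift {n : ℕ} (u : Cn n → EReal) (hu : Lel u) (h : Cn n) (ε : ℝ) (hε : 0 ≤ ε) :
    Lel (fun z => u (z + h) + ((-ε : ℝ) : EReal)) := by
  obtain ⟨hP, C, hC⟩ := hu
  refine ⟨⟨fun z => ?_, ?_, fun a b N => ?_⟩, Real.log (1 + ‖h‖) + C, fun z => ?_⟩
  · rw [add_lt_iff]
    simpa using hP.lt_top (z + h)
  · intro z y hy
    have hy' : u (z + h) < y + (ε : EReal) := (add_lt_iff _ _ _).1 hy
    have h1 := hP.usc (z + h) _ hy'
    have h2 : Tendsto (fun z' : Cn n => z' + h) (𝓝 z) (𝓝 (z + h)) :=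
      (continuous_id.add continuous_const).tendsto z
    exact (h2.eventually h1).mono fun z' hz' => (add_lt_iff _ _ _).2 hz'
  · have key := hP.mean (a + h) b (N - ε)
    have e1 : ∀ t : ℝ, trunc N (u (a + Complex.exp ((t : ℂ) * Complex.I) • b + h) +
        ((-ε : ℝ) : EReal)) =
        trunc (N - ε) (u (a + h + Complex.exp ((t : ℂ) * Complex.I) • b)) - ε := by
      intro t
      rw [trunc_sub _ _ _ (hP.lt_top _)]
      rw [add_right_comm]
    simp only [e1]
    set f : ℝ → ℝ := fun t =>
      trunc (N - ε) (u (a + h + Complex.exp ((t : ℂ) * Complex.I) • b)) with hf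
    by_cases hI : IntervalIntegrable f MeasureTheory.volume 0 (2 * Real.pi)
    · have e2 : (2 * Real.pi)⁻¹ * ∫ t in (0:ℝ)..(2 * Real.pi), (f t - ε) =
          (2 * Real.pi)⁻¹ * (∫ t in (0:ℝ)..(2 * Real.pi), f t) - ε := by
        rw [intervalIntegral.integral_sub hI intervalIntegrable_const]
        rw [intervalIntegral.integral_const]
        have : (2 * Real.pi) ≠ 0 := by positivity
        simp only [sub_zero, smul_eq_mul]
        field_simp
      rw [e2, sub_eq_add_neg, EReal.coe_add]
      exact add_le_add_left key _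
    · have hI2 : ¬ IntervalIntegrable (fun t => f t - ε) MeasureTheory.volume 0 (2 * Real.pi) := by
        intro h3
        apply hI
        have := h3.add (intervalIntegrable_const (c := ε))
        simpa using this
      rw [intervalIntegral.integral_undef hI2]
      rw [intervalIntegral.integral_undef hI] at key
      have : u (a + h) + ((-ε : ℝ) : EReal) ≤ ((((2 * Real.pi)⁻¹ * 0 : ℝ)) : EReal) + ((-ε : ℝ) : EReal) :=
        add_le_add_left key _
      refine this.trans ?_
      rw [← EReal.coe_add]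
      refine EReal.coe_le_coe_iff.2 ?_
      linarith
  · have h1 := hC (z + h)
    have h2 : u (z + h) + ((-ε : ℝ) : EReal) ≤
        ((Real.log (1 + ‖z + h‖) + C : ℝ) : EReal) + ((-ε : ℝ) : EReal) := add_le_add_left h1 _
    refine h2.trans ?_
    rw [← EReal.coe_add]
    refine EReal.coe_le_coe_iff.2 ?_
    have h3 : Real.log (1 + ‖z + h‖) ≤ Real.log (1 + ‖z‖) + Real.log (1 + ‖h‖) := by
      rw [← Real.log_mul (by positivity) (by positivity)]
      refine Real.log_le_log (by positivity) ?_
      have := norm_add_le z h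
      nlinarith [norm_nonneg z, norm_nonneg h]
    linarith

theorem le_V {n : ℕ} (E : Set (Cn n)) (u : Cn n → EReal) (hu : Lel u) (h0 : ∀ w ∈ E, u w ≤ 0)
    (z : Cn n) : u z ≤ V E z := le_sSup ⟨u, hu, h0, rfl⟩

end PkgVCO

open PkgVCO

theorem pVCO : VCOStm := by
  intro n E hE hne hyp
  have hV0 : ∀ z, 0 ≤ V E z := fun z => le_V E _ lel_zero (fun _ _ => le_rfl) z
  have hstep : ∀ ε : ℝ, 0 < ε → ∃ δ > 0, ∀ z h : Cn n, ‖h‖ ≤ δ →
      V E (z + h) ≤ V E z + ((ε : ℝ) : EReal) := by
    intro ε hε
    obtain ⟨δ, hδ, H⟩ := hyp ε hε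
    refine ⟨δ, hδ, fun z h hh => ?_⟩
    refine sSup_le ?_
    rintro t ⟨u, hu, h0, rfl⟩
    have hw := lel_shift u hu h ε hε.le
    have h1 : u (z + h) + ((-ε : ℝ) : EReal) ≤ V E z := by
      refine le_V E _ hw (fun w hwE => ?_) z
      have h2 : infDist (w + h) E ≤ δ := by
        refine (infDist_le_dist_of_mem hwE).trans ?_
        rw [dist_eq_norm]
        simpa using hh
      have h3 : u (w + h) ≤ ((ε : ℝ) : EReal) := (le_V E u hu h0 _).trans (H _ h2)
      calc u (w + h) + ((-ε : ℝ) : EReal) ≤ ((ε : ℝ) : EReal) + ((-ε : ℝ) : EReal) :=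
            add_le_add_left h3 _
        _ = 0 := by rw [← EReal.coe_add]; simp
    refine not_lt.1 fun hlt => absurd h1 (not_le.2 ?_)
    refine (add_lt_iff (V E z) (u (z + h)) (-ε)).1 ?_
    rwa [neg_neg]
  obtain ⟨p, hp⟩ := hne
  have hfin : ∀ z, V E z < ⊤ := by
    obtain ⟨δ, hδ, H⟩ := hyp 1 one_pos
    obtain ⟨δ', hδ', H'⟩ := hstep 1 one_pos
    have hk : ∀ k : ℕ, ∀ z, ‖z - p‖ ≤ k * δ' → V E z < ⊤ := by
      intro k
      induction k with
      | zero =>
        intro z hz
        have : z = p := by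
          have h1 : ‖z - p‖ ≤ 0 := by simpa using hz
          exact sub_eq_zero.1 (norm_le_zero_iff.1 h1)
        subst this
        refine (H z ?_).trans_lt (EReal.coe_lt_top 1)
        rw [infDist_zero_of_mem hp]
        exact hδ.le
      | succ k ih =>
        intro z hz
        have hk1 : (0 : ℝ) < (k : ℝ) + 1 := by positivity
        set c : ℝ := (k : ℝ) / ((k : ℝ) + 1) with hc
        have hc0 : 0 ≤ c := by positivity
        have hc1 : 1 - c = 1 / ((k : ℝ) + 1) := by
          rw [hc]; field_simp; ring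
        have hz1 : V E (p + (c : ℝ) • (z - p)) < ⊤ := by
          apply ih
          rw [add_sub_cancel_left, norm_smul, Real.norm_of_nonneg hc0]
          push_cast at hz
          calc c * ‖z - p‖ ≤ c * (((k : ℝ) + 1) * δ') := by gcongr
            _ = k * δ' := by rw [hc]; field_simp
        have hz2 := H' (p + (c : ℝ) • (z - p)) ((1 - c) • (z - p)) (by
          rw [norm_smul, hc1, Real.norm_of_nonneg (by positivity)]
          push_cast at hz
          calc 1 / ((k : ℝ) + 1) * ‖z - p‖ ≤ 1 / ((k : ℝ) + 1) * (((k : ℝ) + 1) * δ') := by gcongr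
            _ = δ' := by field_simp)
        have e : p + (c : ℝ) • (z - p) + (1 - c) • (z - p) = z := by
          rw [add_assoc, ← add_smul]
          simp
        rw [e] at hz2
        refine hz2.trans_lt ?_
        exact EReal.add_lt_top hz1.ne (EReal.coe_ne_top 1)
    intro z
    obtain ⟨k, hk1⟩ := exists_nat_ge (‖z - p‖ / δ')
    refine hk k z ?_
    rwa [div_le_iff₀ hδ'] at hk1
  have hbot : ∀ z, V E z ≠ ⊥ := fun z h => by
    have := hV0 z
    rw [h] at this
    exact absurd this (by simp)
  set v : Cn n → ℝ := fun z => (V E z).toReal with hv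
  have hVv : ∀ z, V E z = ((v z : ℝ) : EReal) := fun z =>
    (EReal.coe_toReal (hfin z).ne (hbot z)).symm
  have hcont : Continuous v := by
    rw [Metric.continuous_iff]
    intro z ε hε
    obtain ⟨δ, hδ, H⟩ := hstep (ε / 2) (by positivity)
    refine ⟨δ, hδ, fun z' hz' => ?_⟩
    have h1 := H z (z' - z) (by rw [← dist_eq_norm]; exact hz'.le)
    have h2 := H z' (z - z') (by rw [← dist_eq_norm, dist_comm]; exact hz'.le)
    rw [add_sub_cancel, hVv, hVv, ← EReal.coe_add, EReal.coe_le_coe_iff] at h1 h2
    rw [Real.dist_eq, abs_lt]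
    constructor <;> linarith
  refine ⟨v, hcont, hVv, fun z => ?_⟩
  have h1 : V E = fun z => ((v z : ℝ) : EReal) := funext hVv
  have h2 : Tendsto (V E) (𝓝 z) (𝓝 ((v z : ℝ) : EReal)) := by
    rw [h1]
    exact (continuous_coe_real_ereal.comp hcont).tendsto z
  exact h2.limsup_eq

end T2H76.PR
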