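import Pool.Agent.T2H76.PR.PBWA
import Pool.Agent.T2H76.PR.PFIN
import Pool.Agent.T2H76.PR.PGLO
import Pool.Agent.T2H76.PR.PHD
import Pool.Agent.T2H76.PR.PINT
import Pool.Agent.T2H76.PR.PMON
import Pool.Agent.T2H76.PR.PMP
import Pool.Agent.T2H76.PR.PMVA
import Pool.Agent.T2H76.PR.PRIN
import Pool.Agent.T2H76.PR.PSDA
import Pool.Agent.T2H76.PR.PSDE
import Pool.Agent.T2H76.PR.PSL
import Pool.Agent.T2H76.PR.PSM
import Pool.Agent.T2H76.PR.PSTA
import Pool.Agent.T2H76.PR.PSTB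
import Pool.Agent.T2H76.PR.PTAY
import Pool.Agent.T2H76.PR.PUBD
import Pool.Agent.T2H76.PR.PVCO
import Pool.Agent.T2H76.PR.PITE
import Pool.Agent.T2H76.PR.PBDY

namespace T2H76.PR

theorem fin : FINStm := by
  have hMP := pMP pSM
  have hSL := pSL hMP pMVA
  have hHD := pHD hMP pMVA
  have hITE := pITE (pSTB (pSTA hHD) hSL)
  have hUBD := pUBD hITE (pBWA hMP pMVA)
  have hSDE := pSDE pMON pSDA
  have hGLO := pGLO (pINT pTAY pRIN) (pBDY pTAY pRIN hSDE)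
  exact pFIN hGLO hITE hUBD pVCO


end T2H76.PR
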