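import Mathlib

/-!
Definitions for MP_dd9b03_an: the Siciak extremal function of the closure of a C¹ domain in a
C² generic manifold.
-/

open Filter Topology Metric Set

namespace T2H76.PR

/-- Complex `n`-space with its euclidean norm. -/
abbrev Cn (n : ℕ) := EuclideanSpace ℂ (Fin n)

/-- Real `m`-space with its euclidean norm. -/
abbrev Rm (m : ℕ) := EuclideanSpace ℝ (Fin m)

/-- Cut `x` off from below at `-N`, as a real number. -/
noncomputable def trunc (N : ℝ) (x : EReal) : ℝ := (max x ((-N : ℝ) : EReal)).toReal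

/-- Plurisubharmonic functions on complex `n`-space with values in `[-∞, ∞)` (the constant `-∞` is
allowed): upper semicontinuous, and on every complex disc the value at the centre is at most the
mean over the boundary circle.  The mean is written with the function cut off from below at `-N`,
for every `N`; by monotone convergence this is the usual inequality. -/
structure Psh {n : ℕ} (u : Cn n → EReal) : Prop where
  lt_top : ∀ z, u z < ⊤
  usc : UpperSemicontinuous u
  mean : ∀ (a b : Cn n) (N : ℝ), u a ≤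
    (((2 * Real.pi)⁻¹ * ∫ t in (0:ℝ)..(2 * Real.pi),
      trunc N (u (a + Complex.exp ((t : ℂ) * Complex.I) • b)) : ℝ) : EReal)

/-- The Lelong class: plurisubharmonic `u` with `u z ≤ log (1 + |z|) + C`. -/
def Lel {n : ℕ} (u : Cn n → EReal) : Prop :=
  Psh u ∧ ∃ C : ℝ, ∀ z, u z ≤ ((Real.log (1 + ‖z‖) + C : ℝ) : EReal)

/-- The pluricomplex Green function (Siciak extremal function) of `E`. -/
noncomputable def V {n : ℕ} (E : Set (Cn n)) (z : Cn n) : EReal :=
  sSup {t : EReal | ∃ u : Cn n → EReal, Lel u ∧ (∀ w ∈ E, u w ≤ 0) ∧ t = u z}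

/-- Its upper semicontinuous regularisation. -/
noncomputable def Vstar {n : ℕ} (E : Set (Cn n)) (z : Cn n) : EReal :=
  limsup (V E) (𝓝 z)

/-- `ψ : W → M ∩ U` is a local `C²` parametrisation of `M` by an open subset `W` of real
`m`-space: an immersion and a homeomorphism onto `M ∩ U`, with inverse `φ`. -/
structure IsPatch {n m : ℕ} (M U : Set (Cn n)) (W : Set (Rm m)) (ψ : Rm m → Cn n)
    (φ : Cn n → Rm m) : Prop where
  openU : IsOpen U
  openW : IsOpen W
  smooth : ContDiffOn ℝ 2 ψ W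
  inj : ∀ x ∈ W, Function.Injective (fderiv ℝ ψ x)
  maps : ∀ x ∈ W, ψ x ∈ M ∩ U
  maps' : ∀ p ∈ M ∩ U, φ p ∈ W
  left : ∀ x ∈ W, φ (ψ x) = x
  right : ∀ p ∈ M ∩ U, ψ (φ p) = p
  cont : ContinuousOn φ (M ∩ U)

/-- `M` is an embedded real submanifold of class `C²` and of dimension `m`, and it is generic:
the tangent space `T` of `M` at any point (the range of the derivative of any local
parametrisation) satisfies `T + i T = ℂⁿ`. -/
structure IsGeneric {n : ℕ} (m : ℕ) (M : Set (Cn n)) : Prop where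
  patch : ∀ p ∈ M, ∃ (U : Set (Cn n)) (W : Set (Rm m)) (ψ : Rm m → Cn n) (φ : Cn n → Rm m),
    p ∈ U ∧ IsPatch M U W ψ φ
  generic : ∀ (U : Set (Cn n)) (W : Set (Rm m)) (ψ : Rm m → Cn n) (φ : Cn n → Rm m),
    IsPatch M U W ψ φ → ∀ x ∈ W, ∀ w : Cn n, ∃ ξ η : Rm m,
      w = fderiv ℝ ψ x ξ + Complex.I • fderiv ℝ ψ x η

/-- `D` is a relatively compact domain of `M` with `C¹` boundary: connected, relatively open in
`M`, with compact closure contained in `M`, and the boundary `closure D \ D` of `D` in `M` is a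
`C¹` hypersurface of `M` (in a parametrisation near each of its points it is the zero set of a
`C¹` function with non-zero derivative there). -/
structure IsC1Domain {n : ℕ} (m : ℕ) (M D : Set (Cn n)) : Prop where
  conn : IsConnected D
  rel_open : ∃ O : Set (Cn n), IsOpen O ∧ D = M ∩ O
  cpt : IsCompact (closure D)
  sub : closure D ⊆ M
  bdry : ∀ q ∈ closure D \ D, ∃ (U : Set (Cn n)) (W : Set (Rm m)) (ψ : Rm m → Cn n)
    (φ : Cn n → Rm m) (G : Rm m → ℝ), q ∈ U ∧ IsPatch M U W ψ φ ∧ ContDiffOn ℝ 1 G W ∧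
      fderiv ℝ G (φ q) ≠ 0 ∧ ∀ x ∈ W, (ψ x ∈ closure D \ D ↔ G x = 0)

/-- Working notion: `E` contains, up to a quadratic error, a cone with vertex `p` in a generic
real subspace. -/
def Cone {n : ℕ} (E : Set (Cn n)) (p : Cn n) (K r : ℝ) : Prop :=
  ∃ (m : ℕ) (L : Rm m →L[ℝ] Cn n) (ν : Rm m), ‖ν‖ = 1 ∧ ‖L‖ ≤ K ∧
    (∀ w : Cn n, ∃ ξ η : Rm m, ‖ξ‖ ≤ K * ‖w‖ ∧ ‖η‖ ≤ K * ‖w‖ ∧
      w = L ξ + Complex.I • L η) ∧
    ∀ ξ : Rm m, ‖ξ‖ ≤ r → (1 / 2) * ‖ξ‖ ≤ inner ℝ ξ ν → infDist (p + L ξ) E ≤ K * ‖ξ‖ ^ 2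

end T2H76.PR
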