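import Pool.Agent.T2H76.PR.All

open Filter Topology Metric Set

namespace T2H76.PR

theorem V_shift {n : ℕ} (E : Set (Cn n)) (ε : ℝ) (hε : 0 ≤ ε) (h : Cn n)
    (hV : ∀ z, infDist z E ≤ ‖h‖ → V E z ≤ ((ε : ℝ) : EReal)) (z : Cn n) :
    V E (z + h) ≤ V E z + ((ε : ℝ) : EReal) := by
  refine sSup_le ?_
  rintro t ⟨u, hu, huE, rfl⟩
  have hw := PkgVCO.lel_shift u hu h ε hε
  have hwE : ∀ w ∈ E, u (w + h) + ((-ε : ℝ) : EReal) ≤ 0 := by
    intro w hw
    have h1 : infDist (w + h) E ≤ ‖h‖ :=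
      (infDist_le_dist_of_mem hw).trans (by rw [dist_eq_norm, add_sub_cancel_left])
    have h2 : u (w + h) ≤ ((ε : ℝ) : EReal) :=
      (le_sSup ⟨u, hu, huE, rfl⟩ : u (w + h) ≤ V E (w + h)).trans (hV _ h1)
    calc u (w + h) + ((-ε : ℝ) : EReal) ≤ ((ε : ℝ) : EReal) + ((-ε : ℝ) : EReal) :=
          add_le_add_left h2 _
      _ = ((ε + -ε : ℝ) : EReal) := (EReal.coe_add _ _).symm
      _ = 0 := by simp
  have h3 : u (z + h) + ((-ε : ℝ) : EReal) ≤ V E z := le_sSup ⟨_, hw, hwE, rfl⟩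
  calc u (z + h) = u (z + h) + (((-ε : ℝ) : EReal) + (ε : EReal)) := by
        rw [← EReal.coe_add]; simp
    _ = u (z + h) + ((-ε : ℝ) : EReal) + (ε : EReal) := by rw [add_assoc]
    _ ≤ V E z + (ε : EReal) := add_le_add_left h3 _

theorem V_growth (hGLO : GLOStm) (hITE : ITEStm) (hUBD : UBDStm) (hBWA : BWAStm)
    (n m : ℕ) (M D : Set (Cn n)) (hM : IsGeneric m M) (hD : IsC1Domain m M D) :
    ∃ C : ℝ, 0 ≤ C ∧ ∀ s : ℝ, 0 < s → ∀ z, infDist z (closure D) ≤ s →
      V (closure D) z ≤ ((C * s ^ (1 / 8 : ℝ) : ℝ) : EReal) := by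
  have hEne : (closure D).Nonempty := hD.conn.nonempty.closure
  rcases Nat.eq_zero_or_pos n with hn | hn
  · subst hn
    refine ⟨0, le_refl _, fun s _ z _ => ?_⟩
    obtain ⟨w, hw⟩ := hEne
    have hz : z ∈ closure D := by rwa [Subsingleton.elim z w]
    refine sSup_le ?_
    rintro t ⟨u, hu, huE, rfl⟩
    exact (huE z hz).trans (by simp)
  · obtain ⟨K, hK, r, hr, hC⟩ := hGLO n m M D hn hM hD
    obtain ⟨M0, hM0, hub⟩ := hUBD n (closure D) K r hD.cpt hEne hK hr hC
    have hK0 : 0 < K := by linarith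
    obtain ⟨κ, hκ, hκ1, h1, h2, -⟩ := exists_kappa K r 0 1 hK hr (le_refl _) one_pos
    obtain ⟨p₀, hp₀⟩ := id hEne
    obtain ⟨R0, hR0⟩ := hD.cpt.isBounded.subset_closedBall p₀
    have hR00 : 0 ≤ R0 := by
      have := hR0 hp₀
      rw [mem_closedBall, dist_self] at this
      exact this
    have hlog0 : 0 ≤ Real.log (1 + R0) := Real.log_nonneg (by linarith)
    refine ⟨300 * K * M0 + M0 / κ + (M0 + 8 + Real.log (1 + R0)), by positivity,
      fun s hs z hz => ?_⟩
    set q : ℝ := s ^ (1 / 8 : ℝ) with hq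
    have hq0 : 0 < q := Real.rpow_pos_of_pos hs _
    have hq8 : q ^ 8 = s := by
      rw [hq, ← Real.rpow_natCast, ← Real.rpow_mul hs.le]
      norm_num
    have ha : 0 ≤ 300 * K * M0 * q := by positivity
    have hb : 0 ≤ M0 / κ * q := by positivity
    have hc : 0 ≤ (M0 + 8 + Real.log (1 + R0)) * q := by positivity
    refine sSup_le ?_
    rintro t ⟨u, hu, huE, rfl⟩
    rcases le_or_gt q κ with hqκ | hqκ
    · have h9 : 9 * K * q ^ 2 ≤ 1 := by
        refine le_trans ?_ h1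
        gcongr
      have h10 : q ^ 4 ≤ r := by
        refine le_trans ?_ h2
        gcongr
      refine (hITE n u (closure D) K r q M0 hu.1 hD.cpt hEne hK hq0 h9 h10 hM0 hC huE
        (hub u hu huE) z (by rw [hq8]; exact hz)).trans ?_
      refine EReal.coe_le_coe_iff.2 ?_
      linarith
    · have h5 : M0 ≤ M0 / κ * q := by
        rw [div_mul_eq_mul_div, le_div_iff₀ hκ]
        gcongr
      rcases le_or_gt s 1 with hs1 | hs1
      · refine (hub u hu huE z (hz.trans hs1)).trans ?_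
        refine EReal.coe_le_coe_iff.2 ?_
        linarith
      · have hq1 : 1 ≤ q := by
          by_contra hcon
          rw [not_le] at hcon
          have : q ^ 8 < 1 := pow_lt_one₀ hq0.le hcon (by norm_num)
          linarith
        have h6 : ∀ w, ‖w - p₀‖ ≤ 1 → u w ≤ ((M0 : ℝ) : EReal) := by
          intro w hw
          exact hub u hu huE w ((infDist_le_dist_of_mem hp₀).trans (by rwa [dist_eq_norm]))
        have h7 : ‖z - p₀‖ ≤ s * (1 + R0) := by
          obtain ⟨y, hy, hzy⟩ := hD.cpt.exists_infDist_eq_dist hEne z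
          have h71 := hR0 hy
          rw [mem_closedBall] at h71
          rw [hzy] at hz
          rw [← dist_eq_norm]
          have h72 : dist z p₀ ≤ dist z y + dist y p₀ := dist_triangle _ _ _
          nlinarith
        have h8 : (1:ℝ) ≤ s * (1 + R0) := by nlinarith
        have h9 := hBWA n u hu p₀ 1 (s * (1 + R0)) M0 one_pos h8 h6 z h7
        refine h9.trans ?_
        refine EReal.coe_le_coe_iff.2 ?_
        rw [div_one, Real.log_mul (by positivity) (by positivity)]
        have h10 : Real.log s ≤ 8 * q := by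
          have := Real.log_le_rpow_div hs.le (ε := 1 / 8) (by norm_num)
          rw [← hq] at this
          linarith
        have h11 : Real.log (1 + R0) ≤ Real.log (1 + R0) * q := by
          nlinarith
        have h12 : M0 ≤ M0 * q := by nlinarith
        nlinarith

theorem holder (n m : ℕ) (M D : Set (Cn n)) (hM : IsGeneric m M) (hD : IsC1Domain m M D) :
    ∃ (C : NNReal) (v : Cn n → ℝ), HolderWith C (1 / 8) v ∧
      ∀ z : Cn n, V (closure D) z = ((v z : ℝ) : EReal) ∧
        Vstar (closure D) z = ((v z : ℝ) : EReal) := by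
  have hMP := pMP pSM
  have hSL := pSL hMP pMVA
  have hHD := pHD hMP pMVA
  have hITE := pITE (pSTB (pSTA hHD) hSL)
  have hBWA := pBWA hMP pMVA
  have hUBD := pUBD hITE hBWA
  have hSDE := pSDE pMON pSDA
  have hGLO := pGLO (pINT pTAY pRIN) (pBDY pTAY pRIN hSDE)
  obtain ⟨C, hC0, hC⟩ := V_growth hGLO hITE hUBD hBWA n m M D hM hD
  obtain ⟨v, hv, h1, h2⟩ := fin n m M D hM hD
  refine ⟨⟨C, hC0⟩, v, ?_, fun z => ⟨h1 z, h2 z⟩⟩
  have key : ∀ z h : Cn n, v (z + h) ≤ v z + C * ‖h‖ ^ (1 / 8 : ℝ) := by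
    intro z h
    rcases eq_or_ne h 0 with h0 | h0
    · subst h0
      rw [add_zero, norm_zero]
      have : (0:ℝ) ≤ C * (0:ℝ) ^ (1 / 8 : ℝ) := by
        rw [Real.zero_rpow (by norm_num)]
        simp
      linarith
    · have hs : 0 < ‖h‖ := norm_pos_iff.2 h0
      have h3 := V_shift (closure D) (C * ‖h‖ ^ (1 / 8 : ℝ)) (by positivity) h (hC ‖h‖ hs) z
      rw [h1, h1, ← EReal.coe_add] at h3
      exact EReal.coe_le_coe_iff.1 h3
  have key2 : ∀ z w : Cn n, dist (v z) (v w) ≤ C * dist z w ^ (1 / 8 : ℝ) := by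
    intro z w
    have h3 := key w (z - w)
    have h4 := key z (w - z)
    rw [add_sub_cancel] at h3 h4
    rw [norm_sub_rev] at h4
    rw [Real.dist_eq, dist_eq_norm, abs_le]
    constructor <;> linarith
  intro z w
  rw [edist_nndist, edist_nndist, ← ENNReal.coe_rpow_of_nonneg _ (by positivity),
    ← ENNReal.coe_mul, ENNReal.coe_le_coe, ← NNReal.coe_le_coe]
  have h5 := key2 z w
  have h6 : (((1 / 8 : NNReal)) : ℝ) = (1 / 8 : ℝ) := by norm_num
  rw [NNReal.coe_mul, NNReal.coe_rpow, coe_nndist, coe_nndist, h6]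
  exact h5

end T2H76.PR
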