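import Pool.Agent.T2H76.PR.Stm

set_option autoImplicit false

open Filter Topology Metric Set

namespace T2H76.PR

theorem pBWA (hMP : MPStm) (hMVA : MVAStm) : BWAStm := by
  intro n u hu p δ R A hδ hδR hA z hz
  obtain ⟨hpsh, C, hC⟩ := hu
  have hlog : 0 ≤ Real.log (R / δ) := Real.log_nonneg (by rw [le_div_iff₀ hδ]; linarith)
  by_cases hzd : ‖z - p‖ ≤ δ
  · refine (hA z hzd).trans ?_
    exact_mod_cast (by linarith : A ≤ A + Real.log (R / δ))
  push Not at hzd
  obtain ⟨d, hd⟩ : ∃ d : ℝ, d = ‖z - p‖ := ⟨_, rfl⟩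
  rw [← hd] at hz hzd
  have hd0 : 0 < d := hδ.trans hzd
  by_contra hcon
  push Not at hcon
  obtain ⟨y, hy1, hy2⟩ := EReal.lt_iff_exists_real_btwn.1 hcon
  have hy1' : A + Real.log (R / δ) < y := by exact_mod_cast hy1
  have hld : Real.log (d / δ) ≤ Real.log (R / δ) :=
    Real.log_le_log (by positivity) (by gcongr)
  have hld0 : 0 ≤ Real.log (d / δ) := Real.log_nonneg (by rw [le_div_iff₀ hδ]; linarith)
  obtain ⟨ε, hε, hε2⟩ : ∃ ε : ℝ, 0 < ε ∧ A + (1 + ε) * Real.log (d / δ) ≤ y := by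
    refine ⟨(y - A - Real.log (R / δ)) / (Real.log (R / δ) + 1), div_pos (by linarith) (by linarith), ?_⟩
    have h1 : (y - A - Real.log (R / δ)) / (Real.log (R / δ) + 1) * Real.log (d / δ) ≤
        (y - A - Real.log (R / δ)) / (Real.log (R / δ) + 1) * (Real.log (R / δ) + 1) :=
      mul_le_mul_of_nonneg_left (by linarith) (div_nonneg (by linarith) (by linarith))
    rw [div_mul_cancel₀ _ (by linarith : Real.log (R / δ) + 1 ≠ 0)] at h1
    linarith
  obtain ⟨T, hT0, hT1, hT2⟩ : ∃ T : ℝ, d < T ∧ 1 + ‖p‖ ≤ T ∧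
      Real.log 2 + C ≤ A + ε * Real.log T - (1 + ε) * Real.log δ := by
    have h1 := Real.tendsto_log_atTop.eventually_ge_atTop ((Real.log 2 + C - A + (1 + ε) * Real.log δ) / ε)
    obtain ⟨T, hT⟩ := ((h1.and (eventually_gt_atTop d)).and (eventually_ge_atTop (1 + ‖p‖))).exists
    refine ⟨T, hT.1.2, hT.2, ?_⟩
    have h2 := hT.1.1
    rw [div_le_iff₀ hε] at h2
    linarith
  have hT : 0 < T := hd0.trans hT0
  obtain ⟨b, hb⟩ : ∃ b : Cn n, b = ((1 / d : ℝ) : ℂ) • (z - p) := ⟨_, rfl⟩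
  have hbn : ‖b‖ = 1 := by
    rw [hb, norm_smul, ← hd, Complex.norm_real, Real.norm_eq_abs, abs_of_pos (by positivity)]
    field_simp
  have hclos : closure {ζ : ℂ | δ < ‖ζ‖ ∧ ‖ζ‖ < T} ⊆ {ζ : ℂ | δ ≤ ‖ζ‖ ∧ ‖ζ‖ ≤ T} := by
    apply closure_minimal
    · intro ζ hζ
      exact ⟨hζ.1.le, hζ.2.le⟩
    · exact (isClosed_le continuous_const continuous_norm).inter (isClosed_le continuous_norm continuous_const)
  have hopen : IsOpen {ζ : ℂ | δ < ‖ζ‖ ∧ ‖ζ‖ < T} :=
    (isOpen_lt continuous_const continuous_norm).inter (isOpen_lt continuous_norm continuous_const)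
  have key := hMP n u hpsh p b {ζ : ℂ | δ < ‖ζ‖ ∧ ‖ζ‖ < T} (fun ζ => A + (1 + ε) * Real.log (‖ζ‖ / δ)) hopen ?_ ?_ ?_ ?_
    (d : ℂ) ?_
  · have e : p + (d : ℂ) • b = z := by
      rw [hb, smul_smul, ← Complex.ofReal_mul, mul_one_div_cancel hd0.ne', Complex.ofReal_one, one_smul]
      abel
    rw [e] at key
    have e2 : ‖(d : ℂ)‖ = d := by
      rw [Complex.norm_real, Real.norm_eq_abs, abs_of_pos hd0]
    simp only [e2] at key
    have h3 : ((A + (1 + ε) * Real.log (d / δ) : ℝ) : EReal) ≤ (y : EReal) := by exact_mod_cast hε2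
    exact absurd (key.trans h3) (not_le.2 hy2)
  · rw [isBounded_iff_forall_norm_le]
    exact ⟨T, fun ζ hζ => hζ.2.le⟩
  · intro ζ hζ
    have h1 := (hclos hζ).1
    have h2 : ‖ζ‖ ≠ 0 := by linarith
    apply ContinuousAt.continuousWithinAt
    have h3 : ContinuousAt (fun ζ : ℂ => ‖ζ‖ / δ) ζ := continuous_norm.continuousAt.div_const δ
    exact continuousAt_const.add (continuousAt_const.mul (h3.log (div_ne_zero h2 hδ.ne')))
  · intro ζ hζ
    have hz0 : 0 < ‖ζ‖ := hδ.trans hζ.1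
    have hzne : ζ ≠ 0 := norm_pos_iff.1 hz0
    refine ⟨‖ζ‖, hz0, fun s hs hs2 => ?_⟩
    obtain ⟨f, hf⟩ : ∃ f : ℂ → ℂ, f = fun w => (A : ℂ) + ((1 + ε : ℝ) : ℂ) *
        (Complex.log (w / ζ) + ((Real.log (‖ζ‖ / δ) : ℝ) : ℂ)) := ⟨_, rfl⟩
    have hslit : ∀ w ∈ ball ζ ‖ζ‖, w / ζ ∈ Complex.slitPlane := by
      intro w hw
      rw [mem_ball, dist_eq_norm] at hw
      have h4 : ‖w / ζ - 1‖ < 1 := by
        have : w / ζ - 1 = (w - ζ) / ζ := by field_simp
        rw [this, norm_div, div_lt_one hz0]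
        exact hw
      rw [Complex.mem_slitPlane_iff]
      left
      have h5 := Complex.abs_re_le_norm (w / ζ - 1)
      have h6 := (abs_le.1 (h5.trans h4.le)).1
      have h7 : (w / ζ - 1).re = (w / ζ).re - 1 := by simp
      have h8 : |(w / ζ - 1).re| < 1 := h5.trans_lt h4
      have h9 := (abs_lt.1 h8).1
      rw [h7] at h9
      linarith
    have hfd : DifferentiableOn ℂ f (ball ζ ‖ζ‖) := by
      rw [hf]
      intro w hw
      apply DifferentiableAt.differentiableWithinAt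
      have h10 : DifferentiableAt ℂ (fun w : ℂ => Complex.log (w / ζ)) w :=
        (differentiableAt_id.div_const ζ).clog (hslit w hw)
      exact (differentiableAt_const _).add ((differentiableAt_const _).mul (h10.add (differentiableAt_const _)))
    have hre : ∀ w : ℂ, w ≠ 0 → (f w).re = A + (1 + ε) * Real.log (‖w‖ / δ) := by
      intro w hw
      rw [hf]
      simp only [Complex.add_re, Complex.ofReal_re, Complex.re_ofReal_mul, Complex.log_re, norm_div]
      have hw0 : 0 < ‖w‖ := norm_pos_iff.2 hw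
      rw [Real.log_div hw0.ne' hz0.ne', Real.log_div hz0.ne' hδ.ne', Real.log_div hw0.ne' hδ.ne']
      ring
    have h11 := hMVA f ζ ‖ζ‖ hfd s hs hs2
    rw [hre ζ hzne] at h11
    refine le_of_eq ?_
    refine Eq.trans ?_ h11
    congr 1
    apply intervalIntegral.integral_congr
    intro t _
    simp only
    rw [hre]
    intro h0
    have h12 : ‖(s : ℂ) * Complex.exp ((t : ℂ) * Complex.I)‖ = s := by
      rw [norm_mul, Complex.norm_exp_ofReal_mul_I, mul_one, Complex.norm_real, Real.norm_eq_abs, abs_of_pos hs]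
    have h13 : ζ = -((s : ℂ) * Complex.exp ((t : ℂ) * Complex.I)) := eq_neg_of_add_eq_zero_left h0
    have h14 : ‖ζ‖ = s := by
      rw [h13, norm_neg, h12]
    linarith
  · intro ζ hζ
    have h1 := hclos (frontier_subset_closure hζ)
    have h2 : ¬ (δ < ‖ζ‖ ∧ ‖ζ‖ < T) := by
      intro h
      rw [hopen.frontier_eq] at hζ
      exact hζ.2 h
    have hnb : ‖ζ • b‖ = ‖ζ‖ := by rw [norm_smul, hbn, mul_one]
    rcases h1.1.eq_or_lt with h3 | h3
    · have h4 : ‖(p + ζ • b) - p‖ ≤ δ := by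
        rw [add_sub_cancel_left, hnb, ← h3]
      refine (hA _ h4).trans ?_
      rw [← h3, div_self hδ.ne', Real.log_one, mul_zero, add_zero]
    · have h4 : ‖ζ‖ = T := le_antisymm h1.2 (not_lt.1 fun h => h2 ⟨h3, h⟩)
      refine (hC _).trans ?_
      have h5 : ‖p + ζ • b‖ ≤ ‖p‖ + T := by
        refine (norm_add_le _ _).trans ?_
        rw [hnb, h4]
      have h6 : Real.log (1 + ‖p + ζ • b‖) ≤ Real.log (2 * T) := by
        apply Real.log_le_log
        · have := norm_nonneg (p + ζ • b)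
          linarith
        · linarith
      have h7 : Real.log (2 * T) = Real.log 2 + Real.log T := Real.log_mul (by norm_num) hT.ne'
      have h8 : Real.log (T / δ) = Real.log T - Real.log δ := Real.log_div hT.ne' hδ.ne'
      have h9 : Real.log (1 + ‖p + ζ • b‖) + C ≤ A + (1 + ε) * Real.log (‖ζ‖ / δ) := by
        rw [h4, h8]
        nlinarith [h6, h7, hT2]
      exact_mod_cast h9
  · rw [mem_ofPred_eq, Complex.norm_real, Real.norm_eq_abs, abs_of_pos hd0]
    exact ⟨hzd, hT0⟩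

end T2H76.PR
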