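import Pool.Agent.T2H76.PR.Stm

set_option autoImplicit false

open Filter Topology Metric Set

namespace T2H76.PR

theorem pSTB (hSTA : STAStm) (hSL : SLStm) : STBStm := by
  intro n u E p K r₀ κ A M hu hK hκ hKκ hκr hAM hcone hA hM z hz
  have hK0 : 0 < K := by linarith
  have hκ3 : κ ≤ 1 / 3 := by
    by_contra h
    push Not at h
    have h1 : 1 / 9 < κ ^ 2 := by nlinarith
    nlinarith
  have hκ1 : κ ≤ 1 := by linarith
  have hMA : 0 ≤ M - A := by linarith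
  by_cases hbig : 1 ≤ 23 * K * κ
  · refine (hM z (hz.trans (pow_le_one₀ hκ.le hκ1))).trans ?_
    exact_mod_cast (by nlinarith : M ≤ A + (M - A) * (23 * K * κ))
  push Not at hbig
  obtain ⟨m, L, ν, hν, hL, hdec, hc⟩ := hcone
  obtain ⟨s₀, t₀, hs₀, ht₀, hw⟩ := hdec (z - p)
  have hcs : ∀ (x : ℝ) (w : Cn n), (x : ℂ) • w = x • w := by
    intro x w
    ext i
    simp
  have e4 : 0 < κ ^ 4 := by positivity
  have e6 : 0 < κ ^ 6 := by positivity
  have e8 : 0 < κ ^ 8 := by positivity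
  have hs : ‖s₀‖ ≤ K * κ ^ 8 := hs₀.trans (mul_le_mul_of_nonneg_left hz hK0.le)
  have ht : ‖t₀‖ ≤ K * κ ^ 8 := ht₀.trans (mul_le_mul_of_nonneg_left hz hK0.le)
  have hKδ : K * κ ^ 8 ≤ κ ^ 6 / 9 := by
    have h1 : K * κ ^ 8 = (K * κ ^ 2) * κ ^ 6 := by ring
    rw [h1]
    have h2 : K * κ ^ 2 ≤ 1 / 9 := by linarith
    nlinarith
  have h64 : κ ^ 6 ≤ κ ^ 4 / (9 * K) := by
    rw [le_div_iff₀ (by positivity)]
    have h1 : κ ^ 6 * (9 * K) = κ ^ 4 * (9 * K * κ ^ 2) := by ring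
    rw [h1]
    nlinarith
  obtain ⟨r, hr⟩ : ∃ r : ℝ, r = κ ^ 4 / (5 * K) := ⟨_, rfl⟩
  obtain ⟨q, hq⟩ : ∃ q : ℝ, q = κ ^ 4 / K := ⟨_, rfl⟩
  have hq0 : 0 < q := by rw [hq]; positivity
  have hrq : r = q / 5 := by rw [hr, hq]; field_simp
  have h6q : κ ^ 6 ≤ q / 9 := by
    refine h64.trans (le_of_eq ?_)
    rw [hq]
    field_simp
  have hqκ : K * q = κ ^ 4 := by rw [hq]; field_simp
  have hq4 : q ≤ κ ^ 4 := by nlinarith
  have h41 : κ ^ 4 ≤ 1 := pow_le_one₀ hκ.le hκ1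
  have h81 : κ ^ 8 ≤ κ ^ 4 := by
    have : κ ^ 8 = κ ^ 4 * κ ^ 4 := by ring
    rw [this]
    nlinarith
  have hκ4s : κ ^ 4 ≤ 1 / 9 := by
    have h1 : κ ^ 2 ≤ 1 / 9 := by nlinarith
    have h2 : κ ^ 4 = κ ^ 2 * κ ^ 2 := by ring
    rw [h2]
    nlinarith [sq_nonneg κ]
  have hLν : ‖L ν‖ ≤ K := by
    have h1 := L.le_opNorm ν
    rw [hν, mul_one] at h1
    exact h1.trans hL
  have hz3 : z = p + (L s₀ + Complex.I • L t₀) := by
    rw [← hw]
    abel
  have hkey := hSL n u hu z (L ν) (κ ^ 6) r (A + (M - A) * (18 * K * κ ^ 2)) M e6.le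
    (by rw [hr]; positivity) (by rw [hrq]; linarith) ?_ ?_ ?_
  · refine hkey.trans ?_
    have h1 : Real.sqrt (κ ^ 6 / r) ≤ 9 / 4 * (K * κ) := by
      apply Real.sqrt_le_iff.2
      refine ⟨by positivity, ?_⟩
      have h2 : κ ^ 6 / r = 5 * K * κ ^ 2 := by
        rw [hr]
        field_simp
      rw [h2]
      have h3 : (9 / 4 * (K * κ)) ^ 2 = 81 / 16 * (K * κ ^ 2) * K := by ring
      rw [h3]
      have h4 : 0 ≤ K * κ ^ 2 := by positivity
      nlinarith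
    have h5 : 18 * K * κ ^ 2 ≤ 6 * (K * κ) := by
      have h6 : 0 < K * κ := by positivity
      nlinarith
    have h7 : 0 ≤ K * κ := by positivity
    have h8 : 0 ≤ 18 * K * κ ^ 2 := by positivity
    have h9 : 0 ≤ Real.sqrt (κ ^ 6 / r) := Real.sqrt_nonneg _
    have h10 : A + (M - A) * (18 * K * κ ^ 2) + (M - (A + (M - A) * (18 * K * κ ^ 2))) * (2 * Real.sqrt (κ ^ 6 / r)) ≤
        A + (M - A) * (23 * K * κ) := by
      have h11 : (M - (A + (M - A) * (18 * K * κ ^ 2))) ≤ M - A := by nlinarith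
      have h12 : (M - (A + (M - A) * (18 * K * κ ^ 2))) * (2 * Real.sqrt (κ ^ 6 / r)) ≤
          (M - A) * (2 * Real.sqrt (κ ^ 6 / r)) := mul_le_mul_of_nonneg_right h11 (by positivity)
      have h13 : (M - A) * (2 * Real.sqrt (κ ^ 6 / r)) ≤ (M - A) * (9 / 2 * (K * κ)) :=
        mul_le_mul_of_nonneg_left (by linarith) hMA
      have h14 : (M - A) * (18 * K * κ ^ 2) ≤ (M - A) * (6 * (K * κ)) := mul_le_mul_of_nonneg_left h5 hMA
      have h15 : 0 ≤ (M - A) * (K * κ) := mul_nonneg hMA h7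
      nlinarith
    exact_mod_cast h10
  · -- A' ≤ M
    have h5 : 18 * K * κ ^ 2 ≤ 1 := by
      have h6 : 0 < K * κ := by positivity
      nlinarith
    nlinarith
  · -- real points
    intro x hx1 hx2
    have hx0 : 0 < x := e6.trans_le hx1
    have hxK : K * κ ^ 8 ≤ x / 9 := hKδ.trans (by linarith)
    have hxq : x ≤ 14 / 45 * q := by
      rw [hrq] at hx2
      linarith
    have hxν : ‖x • ν‖ = x := by
      rw [norm_smul, hν, mul_one, Real.norm_eq_abs, abs_of_pos hx0]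
    have hsu : ‖s₀ + x • ν‖ ≤ 10 / 9 * x := by
      have := norm_add_le s₀ (x • ν)
      rw [hxν] at this
      linarith
    have hsl : 8 / 9 * x ≤ ‖s₀ + x • ν‖ := by
      have h1 : ‖x • ν‖ ≤ ‖s₀ + x • ν‖ + ‖s₀‖ := by
        have h2 : x • ν = (s₀ + x • ν) - s₀ := by abel
        calc ‖x • ν‖ = ‖(s₀ + x • ν) - s₀‖ := by rw [← h2]
          _ ≤ _ := norm_sub_le _ _
      rw [hxν] at h1
      linarith
    have hin : 8 / 9 * x ≤ inner ℝ (s₀ + x • ν) ν := by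
      rw [inner_add_left, real_inner_smul_left, real_inner_self_eq_norm_sq, hν]
      have h1 := abs_real_inner_le_norm s₀ ν
      rw [hν, mul_one] at h1
      have h2 := (abs_le.1 h1).1
      linarith
    have h1 := hSTA n m u E p K r₀ (κ ^ 8 / 2) A M L ν hu hK (by positivity) hAM hν hL hc hA hM
      (s₀ + x • ν) t₀ ?_ ?_ ?_ ?_ ?_ ?_
    · have h2 : z + (x : ℂ) • L ν = p + L (s₀ + x • ν) + Complex.I • L t₀ := by
        have h3 : z + (x : ℂ) • L ν = p + (L s₀ + Complex.I • L t₀) + x • L ν := by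
          rw [hcs, ← hz3]
        rw [h3, map_add, map_smul]
        abel
      rw [h2]
      refine h1.trans ?_
      have h4 : 16 * ‖t₀‖ / ‖s₀ + x • ν‖ ≤ 18 * K * κ ^ 2 := by
        rw [div_le_iff₀ (by linarith)]
        have h5 : 16 * (K * κ ^ 8) = 18 * K * κ ^ 2 * (8 / 9 * κ ^ 6) := by ring
        have h6 : 18 * K * κ ^ 2 * (8 / 9 * κ ^ 6) ≤ 18 * K * κ ^ 2 * ‖s₀ + x • ν‖ :=
          mul_le_mul_of_nonneg_left (by linarith) (by positivity)
        linarith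
      have h5 : (M - A) * (16 * ‖t₀‖ / ‖s₀ + x • ν‖) ≤ (M - A) * (18 * K * κ ^ 2) :=
        mul_le_mul_of_nonneg_left h4 hMA
      exact_mod_cast (by linarith : A + (M - A) * (16 * ‖t₀‖ / ‖s₀ + x • ν‖) ≤ A + (M - A) * (18 * K * κ ^ 2))
    · intro h0
      rw [h0, norm_zero] at hsl
      linarith
    · linarith
    · have : (9 / 8) * ‖s₀ + x • ν‖ ≤ q := by linarith
      linarith
    · have h3 : K * ‖s₀ + x • ν‖ ≤ K * (1 / 2 * q) := mul_le_mul_of_nonneg_left (by linarith) hK0.le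
      nlinarith
    · have h3 : ‖s₀ + x • ν‖ ≤ 7 / 20 * q := by linarith
      have h4 : K * ‖s₀ + x • ν‖ ≤ 7 / 20 * κ ^ 4 := by
        have := mul_le_mul_of_nonneg_left h3 hK0.le
        nlinarith
      have h5 : ‖s₀ + x • ν‖ ≤ 7 / 20 * κ ^ 4 := by linarith
      have h6 : 2 * K * ‖s₀ + x • ν‖ ^ 2 = 2 * (K * ‖s₀ + x • ν‖) * ‖s₀ + x • ν‖ := by ring
      have h7 : (K * ‖s₀ + x • ν‖) * ‖s₀ + x • ν‖ ≤ (7 / 20 * κ ^ 4) * (7 / 20 * κ ^ 4) :=
        mul_le_mul h4 h5 (norm_nonneg _) (by positivity)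
      have h8 : κ ^ 8 = κ ^ 4 * κ ^ 4 := by ring
      rw [h6, h8]
      nlinarith
    · linarith
  · -- complex points
    intro ζ hζ
    apply hM
    have h1 : ‖ζ‖ ≤ κ ^ 6 + r := by
      have h2 : ζ = (ζ - ((κ ^ 6 : ℝ) : ℂ)) + ((κ ^ 6 : ℝ) : ℂ) := by ring
      rw [h2]
      refine (norm_add_le _ _).trans ?_
      rw [Complex.norm_real, Real.norm_eq_abs, abs_of_pos e6]
      linarith
    have h2 : z + ζ • L ν - p = (z - p) + ζ • L ν := by abel
    rw [h2]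
    refine (norm_add_le _ _).trans ?_
    rw [norm_smul]
    have h3 : ‖ζ‖ * ‖L ν‖ ≤ (14 / 45 * q) * K := by
      apply mul_le_mul _ hLν (norm_nonneg _) (by positivity)
      rw [hrq] at h1
      linarith
    nlinarith

end T2H76.PR
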