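import Pool.Agent.T2H76.PR.Defs

/-!
Statements of the packages (with proofs on paper).  Each package `X` is a file
`Pool/Agent/T2H76/PR/PX.lean` with `theorem T2H76.PR.pX (hyps : other statements) : XStm`.
All packages may be done in parallel.  EReal values `((x : ℝ) : EReal)`.
-/

open Filter Topology Metric Set

namespace T2H76.PR

/-- SM.  Proof: `u (a + e^{it} b) ≤ g t` with `g` continuous; on `[0,2π]` choose `N` with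
`-N ≤ g`; then `trunc N (u ..) ≤ g t` pointwise (and `≥ -N`), `t ↦ trunc N (u ..)` is measurable
(`u` usc, composition with a continuous map is usc hence measurable) and bounded, so integrate
and use `Psh.mean`. -/
def SMStm : Prop := ∀ (n : ℕ) (u : Cn n → EReal), Psh u → ∀ (a b : Cn n) (g : ℝ → ℝ),
  Continuous g → (∀ t : ℝ, u (a + Complex.exp ((t : ℂ) * Complex.I) • b) ≤ ((g t : ℝ) : EReal)) →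
  u a ≤ (((2 * Real.pi)⁻¹ * ∫ t in (0:ℝ)..(2 * Real.pi), g t : ℝ) : EReal)

/-- MVA.  Mean value property of the real part of a holomorphic function (Mathlib:
`Complex.circleIntegral_sub_inv_smul_of_differentiable_on...` or `circleAverage` lemmas). -/
def MVAStm : Prop := ∀ (f : ℂ → ℂ) (c : ℂ) (ρ : ℝ), DifferentiableOn ℂ f (ball c ρ) →
  ∀ s : ℝ, 0 < s → s < ρ →
    (2 * Real.pi)⁻¹ * ∫ t in (0:ℝ)..(2 * Real.pi),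
      (f (c + (s : ℂ) * Complex.exp ((t : ℂ) * Complex.I))).re = (f c).re

/-- MP, maximum principle.  `Ω ⊂ ℂ` bounded open, `h` continuous on `closure Ω`, with the
(super-)mean value inequality for all small circles about points of `Ω`, and `u ≤ h` on the
frontier.  Then `u ≤ h` on `Ω`.
Proof (hypothesis `SMStm`): let `R` bound `|ζ|` on `closure Ω`, `ε > 0`, and
`F ζ = u (a + ζ b) - h ζ + ε |ζ|^2` (usc on the compact `closure Ω`, values in `[-∞,∞)`), which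
takes its maximum `c` at `ζ₀`.  If `c > ε R^2` then `ζ₀ ∈ Ω` (on the frontier `F ≤ ε R^2`) and `c`
is real.  For a small circle of radius `s` inside `Ω` (where `h` is continuous), `u ≤ h - ε|ζ|^2
+ c`, so by SM `u (a + ζ₀ b) ≤ h ζ₀ - ε (|ζ₀|^2 + s^2) + c`, but it is
`= h ζ₀ - ε |ζ₀|^2 + c`, contradiction.  So `u ≤ h - ε|ζ|^2 + ε R^2 ≤ h + ε R^2` on `Ω`; let
`ε → 0`. -/
def MPStm : Prop := ∀ (n : ℕ) (u : Cn n → EReal), Psh u → ∀ (a b : Cn n) (Ω : Set ℂ) (h : ℂ → ℝ),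
  IsOpen Ω → Bornology.IsBounded Ω → ContinuousOn h (closure Ω) →
  (∀ ζ ∈ Ω, ∃ ρ > 0, ∀ s : ℝ, 0 < s → s < ρ →
    (2 * Real.pi)⁻¹ * ∫ t in (0:ℝ)..(2 * Real.pi),
      h (ζ + (s : ℂ) * Complex.exp ((t : ℂ) * Complex.I)) ≤ h ζ) →
  (∀ ζ ∈ frontier Ω, u (a + ζ • b) ≤ ((h ζ : ℝ) : EReal)) →
  ∀ ζ ∈ Ω, u (a + ζ • b) ≤ ((h ζ : ℝ) : EReal)

/-- HD, half disc.  Hypotheses `MPStm`, `MVAStm`.  Proof: `Ω = {|ζ| < r, Im ζ > 0}`,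
`h = A + (M - A) * (2 Im ζ / r + Re (ζ^2) / r^2)`: on the half circle `ζ = r e^{iθ}` the bracket is
`2 sin θ + 1 - 2 sin^2 θ ≥ 1`, on the diameter it is `x^2/r^2 ≥ 0`; at `i y` it is `≤ 2y/r`.
(`y = 0` and `y = r` directly.) -/
def HDStm : Prop := ∀ (n : ℕ) (u : Cn n → EReal), Psh u → ∀ (a b : Cn n) (r A M : ℝ),
  0 < r → A ≤ M →
  (∀ x : ℝ, |x| ≤ r → u (a + (x : ℂ) • b) ≤ ((A : ℝ) : EReal)) →
  (∀ ζ : ℂ, ‖ζ‖ ≤ r → u (a + ζ • b) ≤ ((M : ℝ) : EReal)) →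
  ∀ y : ℝ, 0 ≤ y → y ≤ r →
    u (a + ((y : ℂ) * Complex.I) • b) ≤ ((A + (M - A) * (2 * y / r) : ℝ) : EReal)

/-- SL, slit disc.  Hypotheses `MPStm`, `MVAStm`.  Proof: for `ρ = 0` and for `ρ = r` directly.
Put `q = (ρ - ζ) / r`, `Ω = {|q| < 1} ∩ {q ∈ slitPlane}`,
`S = 2 Re √q - Re q = √2 * √(|q| + Re q) - Re q` (continuous everywhere; on `slitPlane` it is the
real part of the holomorphic `2 exp(log q / 2) - q`).  On the slit `q = -x` it is `x ≥ 0`; on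
`|q| = 1`, `q = e^{iθ}`, with `c = cos (θ/2) ∈ [0,1]` it is `2c - (2c^2 - 1) ≥ 1` (algebraically:
with `s = 1 + Re q ∈ [0,2]`, `√2 √s - (s - 1) ≥ 1` as `√(2s) ≥ s`).  The frontier of `Ω` is inside
`{|q| = 1} ∪ {q ∈ [-1,0]}`.  `h = A + (M - A) S`.  At `ζ = 0`, `q = ρ/r`, `S ≤ 2 √(ρ/r)`. -/
def SLStm : Prop := ∀ (n : ℕ) (u : Cn n → EReal), Psh u → ∀ (a b : Cn n) (ρ r A M : ℝ),
  0 ≤ ρ → 0 < r → ρ ≤ r → A ≤ M →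
  (∀ x : ℝ, ρ ≤ x → x ≤ ρ + r → u (a + (x : ℂ) • b) ≤ ((A : ℝ) : EReal)) →
  (∀ ζ : ℂ, ‖ζ - (ρ : ℂ)‖ ≤ r → u (a + ζ • b) ≤ ((M : ℝ) : EReal)) →
  u a ≤ ((A + (M - A) * (2 * Real.sqrt (ρ / r)) : ℝ) : EReal)

/-- STA.  Hypothesis `HDStm`.  Proof: if `t = 0`: `s` is in the cone, `infDist ≤ K‖s‖² ≤ τ`, so
`u ≤ A`.  Otherwise put `b = L (t/‖t‖)` (`‖b‖ ≤ K`), `a = p + L s`, `r = ‖s‖/8`, `y = ‖t‖`.
For `|x| ≤ r`, `ξ = s + (x/‖t‖) t` has `‖ξ‖ ≤ (9/8)‖s‖ ≤ r₀`, `⟪ξ,ν⟫ ≥ (5/8)‖s‖ ≥ (1/2)‖ξ‖`,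
`infDist (p + L ξ) E ≤ K (81/64) ‖s‖² ≤ τ`, so `u ≤ A` there; for complex `|ζ| ≤ r`,
`‖a + ζ b - p‖ ≤ (9/8) K ‖s‖ ≤ 1`, so `u ≤ M`.  HD gives the bound `2 ‖t‖ / (‖s‖/8)`. -/
def STAStm : Prop := ∀ (n m : ℕ) (u : Cn n → EReal) (E : Set (Cn n)) (p : Cn n)
  (K r₀ τ A M : ℝ) (L : Rm m →L[ℝ] Cn n) (ν : Rm m),
  Psh u → 1 ≤ K → 0 < τ → A ≤ M → ‖ν‖ = 1 → ‖L‖ ≤ K →
  (∀ ξ : Rm m, ‖ξ‖ ≤ r₀ → (1 / 2) * ‖ξ‖ ≤ inner ℝ ξ ν → infDist (p + L ξ) E ≤ K * ‖ξ‖ ^ 2) →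
  (∀ z, infDist z E ≤ τ → u z ≤ ((A : ℝ) : EReal)) →
  (∀ z, ‖z - p‖ ≤ 1 → u z ≤ ((M : ℝ) : EReal)) →
  ∀ s t : Rm m, s ≠ 0 → (3 / 4) * ‖s‖ ≤ inner ℝ s ν → (9 / 8) * ‖s‖ ≤ r₀ → 2 * K * ‖s‖ ≤ 1 →
    2 * K * ‖s‖ ^ 2 ≤ τ → 8 * ‖t‖ ≤ ‖s‖ →
    u (p + L s + Complex.I • L t) ≤ ((A + (M - A) * (16 * ‖t‖ / ‖s‖) : ℝ) : EReal)

/-- STB.  Hypotheses `STAStm`, `SLStm`.  Proof: if `23 K κ ≥ 1` use `u ≤ M`.  Else let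
`δ = κ^8`, `z - p = L s₀ + I • L t₀` with `‖s₀‖, ‖t₀‖ ≤ K δ`, `ρ = κ^6`, `r = κ^4/(5K)`.  On the
line `z + ζ L ν`: for real `x ∈ [ρ, ρ + r]` put `s = s₀ + x ν`, `t = t₀`.  As `x ≥ ρ ≥ 9Kδ`:
`‖s‖ ≤ x + Kδ ≤ (10/9) x`, `⟪s,ν⟫ ≥ x - Kδ ≥ (3/4)(x + Kδ)`, `‖s‖ ≥ (8/9) x ≥ 8Kδ ≥ 8‖t‖`;
`x ≤ ρ + r ≤ κ^4 (14/45)/K`, so `‖s‖ ≤ 0.346 κ^4 / K`, which gives `(9/8)‖s‖ ≤ r₀`,
`2K‖s‖ ≤ 1` (`κ ≤ 1/3`), `2K‖s‖² ≤ κ^8/2 =: τ`.  STA: `u ≤ A' := A + (M-A) * 18 K κ²` (since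
`16 Kδ / ((8/9) κ^6) = 18 K κ²`), and `A' ≤ M` as `18 K κ² ≤ 23 K κ < 1`.  For
`|ζ - ρ| ≤ r`, `‖z + ζ Lν - p‖ ≤ δ + K (ρ + r) ≤ 1`, so `u ≤ M`.  SL:
`u z ≤ A' + (M - A') 2 √(5 K κ²) ≤ A + (M - A)(18 K κ² + 2 √5 √K κ) ≤ A + (M-A) (23 K κ)`
(as `κ ≤ 1/3`, `√K ≤ K`). -/
def STBStm : Prop := ∀ (n : ℕ) (u : Cn n → EReal) (E : Set (Cn n)) (p : Cn n)
  (K r₀ κ A M : ℝ), Psh u → 1 ≤ K → 0 < κ → 9 * K * κ ^ 2 ≤ 1 → κ ^ 4 ≤ r₀ → A ≤ M →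
  Cone E p K r₀ →
  (∀ z, infDist z E ≤ κ ^ 8 / 2 → u z ≤ ((A : ℝ) : EReal)) →
  (∀ z, ‖z - p‖ ≤ 1 → u z ≤ ((M : ℝ) : EReal)) →
  ∀ z, ‖z - p‖ ≤ κ ^ 8 → u z ≤ ((A + (M - A) * (23 * K * κ) : ℝ) : EReal)

/-- ITE.  Hypothesis `STBStm`.  Proof: `q = 2^{-1/8}`, `κ_j = κ q^j`, so `κ_{j+1}^8 = κ_j^8/2`.
Step: if `0 ≤ A ≤ M` and `u ≤ A` on `{infDist ≤ κ_{j+1}^8}` then `u ≤ min M (A + 23 K M κ_j)` on
`{infDist ≤ κ_j^8}` (each such `z` has a nearest point `p ∈ E`; ball(p,1) is in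
`{infDist ≤ 1}`).  So by induction on `N`: `u ≤ A` on `{infDist ≤ κ_N^8}` implies
`u ≤ A + 23 K M Σ_{j<N} κ_j ≤ A + 23 K M κ/(1-q) ≤ A + 300 K M κ` on `{infDist ≤ κ^8}`
(`q ≤ 0.9171`, as `0.9171^8 ≥ 1/2`; in Lean: it suffices `q ≤ 277/300`, i.e.
`(277/300)^8 ≥ 1/2`: check with norm_num, `1/(1-q) ≤ 300/23`).
For `ε > 0` the open set `{u < ε}` contains the compact `E`, so contains `{infDist ≤ κ_N^8}` for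
large `N`; take `A = min ε M`; let `ε → 0`. -/
def ITEStm : Prop := ∀ (n : ℕ) (u : Cn n → EReal) (E : Set (Cn n)) (K r₀ κ M : ℝ), Psh u →
  IsCompact E → E.Nonempty → 1 ≤ K → 0 < κ → 9 * K * κ ^ 2 ≤ 1 → κ ^ 4 ≤ r₀ → 0 ≤ M →
  (∀ p ∈ E, Cone E p K r₀) → (∀ z ∈ E, u z ≤ 0) →
  (∀ z, infDist z E ≤ 1 → u z ≤ ((M : ℝ) : EReal)) →
  ∀ z, infDist z E ≤ κ ^ 8 → u z ≤ ((300 * K * M * κ : ℝ) : EReal)

/-- BWA, Bernstein-Walsh from a ball.  Hypotheses `MPStm`, `MVAStm`.  Proof: fix a unit vector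
`b`; on the annulus `δ < |ζ| < T` compare `u (p + ζ b)` with `h = A + (1+ε) log (|ζ|/δ)`
(locally `log |ζ|` is the real part of a holomorphic branch, e.g. of `Complex.log (ζ / ζ₀)` plus
`log |ζ₀|` near `ζ₀`): on `|ζ| = δ` fine, on `|ζ| = T` with `T` large
`u ≤ log (1 + ‖p‖ + T) + C ≤ A + (1+ε) log (T/δ)`.  MP, then `ε → 0`:
`u (p + ζ b) ≤ A + log (|ζ|/δ)` for `|ζ| > δ`.  For `‖z - p‖ ≤ δ` use `log (R/δ) ≥ 0`. -/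
def BWAStm : Prop := ∀ (n : ℕ) (u : Cn n → EReal), Lel u → ∀ (p : Cn n) (δ R A : ℝ),
  0 < δ → δ ≤ R → (∀ z, ‖z - p‖ ≤ δ → u z ≤ ((A : ℝ) : EReal)) →
  ∀ z, ‖z - p‖ ≤ R → u z ≤ ((A + Real.log (R / δ) : ℝ) : EReal)

/-- UBD, uniform bound.  Hypotheses `ITEStm`, `BWAStm`.  Proof: choose `κ > 0` with
`9 K κ² ≤ 1`, `κ^4 ≤ r₀`, `300 K κ ≤ 1/2`, `κ ≤ 1`.  Fix `p₀ ∈ E`; `S = {infDist ≤ 1}` is compact,
inside `closedBall p₀ R`, `R ≥ 1`.  For `u` let `M_u ≥ 0` be real with `u ≤ M_u` on `S` and either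
`M_u = 0` or attained (usc on compact).  ITE: `u ≤ M_u/2` on `{infDist ≤ κ^8}`, so on
`closedBall p₀ κ^8`; BWA: `u ≤ M_u/2 + log (R/κ^8)` on `S`; hence `M_u ≤ 2 log (R/κ^8) =: M₀`. -/
def UBDStm : Prop := ∀ (n : ℕ) (E : Set (Cn n)) (K r₀ : ℝ), IsCompact E → E.Nonempty → 1 ≤ K →
  0 < r₀ → (∀ p ∈ E, Cone E p K r₀) →
  ∃ M₀ : ℝ, 0 ≤ M₀ ∧ ∀ u : Cn n → EReal, Lel u → (∀ z ∈ E, u z ≤ 0) →
    ∀ z, infDist z E ≤ 1 → u z ≤ ((M₀ : ℝ) : EReal)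

/-- VCO.  Proof: `u = 0` is in the class so `V ≥ 0`.  Given `ε, δ`: for `u` in the class with
`u ≤ 0` on `E` and `‖h‖ ≤ δ`, the function `w z = u (z + h) - ε` is in the class (translation and
subtracting a constant) and `≤ 0` on `E` since `infDist (z + h) E ≤ δ`; so
`V (z + h) ≤ V z + ε` for all `z` and `‖h‖ ≤ δ`.  Hence `V` is finite everywhere (chain of steps
of length `≤ δ` from a point of `E`), `v = toReal ∘ V` is continuous, and the limsup of the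
continuous function `V` at `z` is `V z`. -/
def VCOStm : Prop := ∀ (n : ℕ) (E : Set (Cn n)), IsCompact E → E.Nonempty →
  (∀ ε : ℝ, 0 < ε → ∃ δ > 0, ∀ z, infDist z E ≤ δ → V E z ≤ ((ε : ℝ) : EReal)) →
  ∃ v : Cn n → ℝ, Continuous v ∧ (∀ z, V E z = ((v z : ℝ) : EReal)) ∧
    ∀ z, Vstar E z = ((v z : ℝ) : EReal)

/-- TAY.  Proof: `fderiv ℝ ψ` is `C¹` on the open `W`, so Lipschitz with some constant `K` on a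
closed ball about `x₀` of radius `2ρ` inside `W` (e.g. `ContDiffAt.exists_lipschitzOnWith`);
`Convex.norm_image_sub_le_of_norm_fderiv_le'`-type mean value inequality on the segment. -/
def TAYStm : Prop := ∀ (n m : ℕ) (ψ : Rm m → Cn n) (W : Set (Rm m)) (x₀ : Rm m), IsOpen W →
  ContDiffOn ℝ 2 ψ W → x₀ ∈ W → ∃ K : ℝ, 1 ≤ K ∧ ∃ ρ > 0, ∀ x : Rm m, ‖x - x₀‖ ≤ ρ →
    ‖fderiv ℝ ψ x‖ ≤ K ∧ ∀ ξ : Rm m, ‖ξ‖ ≤ ρ → x + ξ ∈ W ∧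
      ‖ψ (x + ξ) - ψ x - fderiv ℝ ψ x ξ‖ ≤ K * ‖ξ‖ ^ 2

/-- RIN, bounded right inverses near `x₀`.  Proof: `T_x (ξ, η) = Λ_x ξ + I • Λ_x η` is onto at
`x₀`, so has a continuous linear right inverse `R` there (finite dimension); near `x₀`
`‖(T_x - T_{x₀}) R‖ ≤ 1/2`, so `T_x R` is invertible with inverse of norm `≤ 2`. -/
def RINStm : Prop := ∀ (n m : ℕ) (Λ : Rm m → (Rm m →L[ℝ] Cn n)) (x₀ : Rm m),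
  ContinuousAt Λ x₀ → (∀ w : Cn n, ∃ ξ η : Rm m, w = Λ x₀ ξ + Complex.I • Λ x₀ η) →
  ∃ K : ℝ, 1 ≤ K ∧ ∃ ρ > 0, ∀ x : Rm m, ‖x - x₀‖ ≤ ρ → ∀ w : Cn n, ∃ ξ η : Rm m,
    ‖ξ‖ ≤ K * ‖w‖ ∧ ‖η‖ ≤ K * ‖w‖ ∧ w = Λ x ξ + Complex.I • Λ x η

/-- INT, interior points.  Hypotheses `TAYStm`, `RINStm`.  Proof: patch at `p₀`, `x₀ = φ p₀`;
`D = M ∩ O`.  For `x` near `x₀` and `ξ` small `ψ (x + ξ) ∈ M ∩ O = D`, so with `L = fderiv ℝ ψ x`,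
`infDist (ψ x + L ξ) (closure D) ≤ ‖ψ (x+ξ) - ψ x - L ξ‖ ≤ K ‖ξ‖²`; `ν` any unit vector
(`0 < m`).  Points `p ∈ closure D` near `p₀` are in `M ∩ U` and `φ p` is near `x₀`. -/
def INTStm : Prop := ∀ (n m : ℕ) (M D : Set (Cn n)), 0 < m → IsGeneric m M → IsC1Domain m M D →
  ∀ p₀ ∈ D, ∃ K : ℝ, 1 ≤ K ∧ ∃ r > 0, ∃ ρ > 0, ∀ p ∈ closure D, ‖p - p₀‖ < ρ →
    Cone (closure D) p K r

/-- MON.  Proof: `ν` the normalised gradient of `G` at `x₀`; near `x₀`,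
`‖fderiv G y - fderiv G x₀‖ ≤ ‖fderiv G x₀‖/4`, and the mean value theorem on the segment gives
`G (x+ξ) - G x ≥ ‖∇G(x₀)‖ ⟪ξ,ν⟫ - (1/4)‖∇G(x₀)‖ ‖ξ‖ > 0`. -/
def MONStm : Prop := ∀ (m : ℕ) (G : Rm m → ℝ) (W : Set (Rm m)) (x₀ : Rm m), IsOpen W → x₀ ∈ W →
  ContDiffOn ℝ 1 G W → fderiv ℝ G x₀ ≠ 0 → ∃ ν : Rm m, ‖ν‖ = 1 ∧ ∃ R > 0, ball x₀ R ⊆ W ∧
    ∀ x ξ : Rm m, x ∈ ball x₀ R → x + ξ ∈ ball x₀ R → (1 / 2) * ‖ξ‖ ≤ inner ℝ ξ ν → ξ ≠ 0 →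
      G x < G (x + ξ)

/-- SDA.  Proof: join `a` to `a + sν` to `b + sν` to `b` by segments, `s = 3R/5`: `G > 0` on the
path (it increases along `ν`; on the middle segment a point is `x₀ + (sν + v)` with `‖v‖ ≤ R/5`,
and `sν + v` is a non-zero cone vector), which stays in `ball x₀ R`.  The path `P` is
preconnected, `A₀` is open and meets it, `closure A₀ ∩ P ⊆ A₀`:
`IsPreconnected.subset_of_closure_inter_subset`. -/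
def SDAStm : Prop := ∀ (m : ℕ) (G : Rm m → ℝ) (x₀ ν : Rm m) (R : ℝ) (A₀ : Set (Rm m)),
  0 < R → ‖ν‖ = 1 →
  (∀ x ξ : Rm m, x ∈ ball x₀ R → x + ξ ∈ ball x₀ R → (1 / 2) * ‖ξ‖ ≤ inner ℝ ξ ν → ξ ≠ 0 →
      G x < G (x + ξ)) →
  G x₀ = 0 → IsOpen A₀ → (∀ x ∈ ball x₀ R, x ∈ closure A₀ → x ∈ A₀ ∨ G x = 0) →
  ∀ a b : Rm m, a ∈ A₀ → ‖a - x₀‖ ≤ R / 5 → ‖b - x₀‖ ≤ R / 5 → 0 < G a → 0 < G b → b ∈ A₀

/-- SDE.  Hypotheses `MONStm`, `SDAStm`.  Proof: MON gives `ν, R` (and the same for `-G, -ν`).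
Some `a ∈ A₀` within `R/5` of `x₀`.  `P`: there is such `a` with `G a > 0`; `Q`: with `G a < 0`;
`P` or `Q`.  `P` implies all `b` within `R/5` with `G b > 0` are in `A₀` (SDA), same for `Q`
(SDA with `-G, -ν`).  If `P` and `Q`: `ν`, `ρ = R/10` works.  If `P` only: `x ∈ A₀ ∨ G x = 0`
near `x₀` means `G x ≥ 0`, and `G (x+ξ) > G x ≥ 0` for `ξ ≠ 0` in the cone.  If `Q` only use
`-ν`. -/
def SDEStm : Prop := ∀ (m : ℕ) (G : Rm m → ℝ) (W : Set (Rm m)) (x₀ : Rm m) (A₀ : Set (Rm m)),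
  IsOpen W → x₀ ∈ W → ContDiffOn ℝ 1 G W → fderiv ℝ G x₀ ≠ 0 → G x₀ = 0 → IsOpen A₀ →
  (∀ x ∈ W, x ∈ closure A₀ → x ∈ A₀ ∨ G x = 0) → (∀ x ∈ A₀, G x ≠ 0) → x₀ ∈ closure A₀ →
  ∃ ν : Rm m, ‖ν‖ = 1 ∧ ∃ ρ > 0, ∀ x : Rm m, ‖x - x₀‖ ≤ ρ → (x ∈ A₀ ∨ G x = 0) →
    ∀ ξ : Rm m, ‖ξ‖ ≤ ρ → (1 / 2) * ‖ξ‖ ≤ inner ℝ ξ ν → (x + ξ ∈ A₀ ∨ G (x + ξ) = 0)

/-- BDY, boundary points.  Hypotheses `TAYStm`, `RINStm`, `SDEStm`.  Proof: `(U,W,ψ,φ,G)` from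
`bdry`, `x₀ = φ q`, `A₀ = {x ∈ W | ψ x ∈ D}` (open: `D = M ∩ O`, `ψ` continuous on the open `W`).
If `x ∈ W ∩ closure A₀` then `ψ x ∈ closure D`, so `x ∈ A₀` or `G x = 0`.  `G x₀ = 0`;
`x₀ ∈ closure A₀` by continuity of `φ` on `M ∩ U`.  SDE gives `ν`, `ρ₁`.  For `p ∈ closure D`
near `q`, `x = φ p` is near `x₀` and `x ∈ A₀ ∨ G x = 0`, so for small `ξ` in the cone
`ψ (x + ξ) ∈ closure D`, and TAY gives the infDist bound with `L = fderiv ℝ ψ x`; RIN gives the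
right inverses. -/
def BDYStm : Prop := ∀ (n m : ℕ) (M D : Set (Cn n)), IsGeneric m M → IsC1Domain m M D →
  ∀ q ∈ closure D \ D, ∃ K : ℝ, 1 ≤ K ∧ ∃ r > 0, ∃ ρ > 0, ∀ p ∈ closure D, ‖p - q‖ < ρ →
    Cone (closure D) p K r

/-- GLO.  Hypotheses `INTStm`, `BDYStm`.  Proof: `Cone E p K r` is monotone (up in `K`, down in
`r`); compactness of `closure D`; `0 < m` from `0 < n` and genericity. -/
def GLOStm : Prop := ∀ (n m : ℕ) (M D : Set (Cn n)), 0 < n → IsGeneric m M → IsC1Domain m M D →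
  ∃ K : ℝ, 1 ≤ K ∧ ∃ r > 0, ∀ p ∈ closure D, Cone (closure D) p K r

/-- FIN, the theorem (assembly by helper76).  Hypotheses `GLOStm`, `ITEStm`, `UBDStm`,
`VCOStm`. -/
def FINStm : Prop := ∀ (n m : ℕ) (M D : Set (Cn n)), IsGeneric m M → IsC1Domain m M D →
  ∃ v : Cn n → ℝ, Continuous v ∧ (∀ z, V (closure D) z = ((v z : ℝ) : EReal)) ∧
    ∀ z, Vstar (closure D) z = ((v z : ℝ) : EReal)

end T2H76.PR
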